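import Mathlib

/-! Permanent of a matrix with entries `a i * c j + b i * d j`. -/

namespace Pool.Agent.Lib.MP_395ab6_co

open Finset Polynomial

section General

variable {ι : Type*} [Fintype ι] [DecidableEq ι] {K : Type*} [CommRing K]

/-- The product of `a` over `T` times the product of `b` over the complement of `T`. -/
def gg (a b : ι → K) (T : Finset ι) : K := (∏ i ∈ T, a i) * ∏ i ∈ Tᶜ, b i

/-- The sum of `gg a b T` over all `T` of size `k`. -/
def EE (a b : ι → K) (k : ℕ) : K := ∑ T ∈ powersetCard k (univ : Finset ι), gg a b T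

lemma gg_map (a b : ι → K) (σ : Equiv.Perm ι) (S : Finset ι) :
    (∏ i ∈ S, a (σ i)) * ∏ i ∈ Sᶜ, b (σ i) = gg a b (S.map σ.toEmbedding) := by
  unfold gg
  have h : (S.map σ.toEmbedding)ᶜ = Sᶜ.map σ.toEmbedding := by
    ext x
    simp [Finset.mem_map_equiv]
  rw [h, prod_map, prod_map]
  rfl

lemma sum_perm_eq_of_card (a b : ι → K) (S S' : Finset ι) (h : S.card = S'.card) :
    ∑ σ : Equiv.Perm ι, gg a b (S.map σ.toEmbedding) =
      ∑ σ : Equiv.Perm ι, gg a b (S'.map σ.toEmbedding) := by
  obtain ⟨τ, hτ⟩ := Equiv.Perm.exists_map_finset_eq S S' h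
  rw [← hτ]
  symm
  refine Fintype.sum_equiv (Equiv.mulRight τ) _ _ ?_
  intro σ
  congr 1
  rw [Finset.map_map]
  rfl

lemma sum_powersetCard_map (a b : ι → K) (σ : Equiv.Perm ι) (k : ℕ) :
    ∑ S ∈ powersetCard k (univ : Finset ι), gg a b (S.map σ.toEmbedding) = EE a b k := by
  unfold EE
  refine Finset.sum_bij' (fun S _ => S.map σ.toEmbedding) (fun S _ => S.map σ.symm.toEmbedding)
    ?_ ?_ ?_ ?_ ?_
  · intro S hS
    simpa using hS
  · intro S hS
    simpa using hS
  · intro S _
    simp [Finset.map_map]
  · intro S _
    simp [Finset.map_map]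
  · intro S _
    rfl

lemma sum_perm_gg [IsDomain K] [CharZero K] (a b : ι → K) (S : Finset ι) :
    ∑ σ : Equiv.Perm ι, gg a b (S.map σ.toEmbedding) =
      ((S.card.factorial * (Fintype.card ι - S.card).factorial : ℕ) : K) * EE a b S.card := by
  have hle : S.card ≤ Fintype.card ι := S.card_le_univ
  have h1 : ∑ S' ∈ powersetCard S.card (univ : Finset ι),
      ∑ σ : Equiv.Perm ι, gg a b (S'.map σ.toEmbedding) =
      (((Fintype.card ι).choose S.card : ℕ) : K) *
        ∑ σ : Equiv.Perm ι, gg a b (S.map σ.toEmbedding) := by
    rw [Finset.sum_congr rfl (g := fun _ => ∑ σ : Equiv.Perm ι, gg a b (S.map σ.toEmbedding))]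
    · simp [Finset.card_powersetCard]
    · intro S' hS'
      exact sum_perm_eq_of_card a b S' S (mem_powersetCard.mp hS').2
  have h2 : ∑ S' ∈ powersetCard S.card (univ : Finset ι),
      ∑ σ : Equiv.Perm ι, gg a b (S'.map σ.toEmbedding) =
      (((Fintype.card ι).factorial : ℕ) : K) * EE a b S.card := by
    rw [Finset.sum_comm]
    simp [sum_powersetCard_map, Fintype.card_perm]
  have h3 : (Fintype.card ι).choose S.card * S.card.factorial *
      (Fintype.card ι - S.card).factorial = (Fintype.card ι).factorial :=
    Nat.choose_mul_factorial_mul_factorial hle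
  have h4 : (((Fintype.card ι).choose S.card : ℕ) : K) ≠ 0 := by
    exact_mod_cast (Nat.choose_pos hle).ne'
  apply mul_left_cancel₀ h4
  rw [← h1, h2, ← h3]
  push_cast
  ring

theorem permanent_rank_two [IsDomain K] [CharZero K] (a b c d : ι → K) :
    Matrix.permanent (Matrix.of fun i j => a i * c j + b i * d j) =
      ∑ k ∈ range (Fintype.card ι + 1),
        ((k.factorial * (Fintype.card ι - k).factorial : ℕ) : K) * (EE a b k * EE c d k) := by
  unfold Matrix.permanent
  have h1 : ∀ σ : Equiv.Perm ι, ∏ i, (Matrix.of fun i j => a i * c j + b i * d j) (σ i) i =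
      ∑ S : Finset ι, gg c d S * gg a b (S.map σ.toEmbedding) := by
    intro σ
    simp only [Matrix.of_apply]
    rw [Fintype.prod_add]
    refine Finset.sum_congr rfl fun S _ => ?_
    rw [← gg_map, prod_mul_distrib, prod_mul_distrib]
    unfold gg
    ring
  simp_rw [h1]
  rw [Finset.sum_comm]
  simp_rw [← Finset.mul_sum, sum_perm_gg]
  rw [← Finset.powerset_univ, Finset.sum_powerset, Finset.card_univ]
  refine Finset.sum_congr rfl fun k _ => ?_
  rw [Finset.sum_congr rfl (g := fun S => gg c d S *
    (((k.factorial * (Fintype.card ι - k).factorial : ℕ) : K) * EE a b k))]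
  · rw [← Finset.sum_mul]
    unfold EE
    ring
  · intro S hS
    rw [(mem_powersetCard.mp hS).2]

lemma EE_eq_coeff (a b : ι → K) (k : ℕ) :
    EE a b k = (∏ i, (C (a i) * X + C (b i))).coeff k := by
  rw [Fintype.prod_add, finsetSum_coeff]
  have h : ∀ S : Finset ι, ((∏ i ∈ S, C (a i) * X) * ∏ i ∈ Sᶜ, C (b i)).coeff k =
      if S.card = k then gg a b S else 0 := by
    intro S
    rw [prod_mul_distrib, prod_const, ← map_prod, ← map_prod, mul_right_comm, ← map_mul,
      coeff_C_mul, coeff_X_pow]
    unfold gg
    by_cases h : S.card = k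
    · simp [h]
    · simp [h, Ne.symm h]
  simp_rw [h]
  unfold EE
  rw [← Finset.sum_filter]
  congr 1
  ext S
  simp

end General

section Lists

variable {K : Type*} [CommRing K]

/-- One multiplication step on coefficient lists. -/
def step (a b : K) : K → List K → List K
  | prev, [] => [a * prev]
  | prev, c :: cs => (a * prev + b * c) :: step a b c cs

/-- Coefficient list of a product of linear polynomials. -/
def coefs : List (K × K) → List K
  | [] => [1]
  | x :: l => step x.1 x.2 0 (coefs l)

lemma step_getD (a b : K) (p : List K) : ∀ (prev : K) (k : ℕ),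
    (step a b prev p).getD k 0 = a * (prev :: p).getD k 0 + b * p.getD k 0 := by
  induction p with
  | nil =>
    intro prev k
    cases k <;> simp [step]
  | cons c cs ih =>
    intro prev k
    cases k with
    | zero => simp [step]
    | succ k =>
      have := ih c k
      simpa [step] using this

lemma coefs_getD (l : List (K × K)) : ∀ k : ℕ,
    (coefs l).getD k 0 = ((l.map fun x : K × K => C x.1 * X + C x.2).prod).coeff k := by
  induction l with
  | nil =>
    intro k
    cases k <;> simp [coefs, coeff_one]
  | cons x l ih =>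
    intro k
    rw [coefs, step_getD, List.map_cons, List.prod_cons, add_mul, coeff_add, mul_assoc,
      coeff_C_mul, coeff_C_mul, ← ih]
    cases k with
    | zero => simp
    | succ k =>
      rw [coeff_X_mul, ← ih]
      simp

/-- The value of the permanent, computed on lists. -/
def permVal (l l' : List (K × K)) : K :=
  ∑ k ∈ range (l.length + 1),
    ((k.factorial * (l.length - k).factorial : ℕ) : K) *
      ((coefs l).getD k 0 * (coefs l').getD k 0)

theorem permanent_subtype [IsDomain K] [CharZero K] {n : ℕ} (p : Fin n → Prop) [DecidablePred p]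
    (a b c d : Fin n → K) :
    Matrix.permanent ((Matrix.of fun i j => a i * c j + b i * d j).submatrix
      (fun j : {j : Fin n // p j} => j.1) (fun j : {j : Fin n // p j} => j.1)) =
    permVal (((List.finRange n).filter fun j => decide (p j)).map fun j => (a j, b j))
      (((List.finRange n).filter fun j => decide (p j)).map fun j => (c j, d j)) := by
  have hcard : Fintype.card {j : Fin n // p j} =
      ((List.finRange n).filter fun j => decide (p j)).length := by
    rw [Fintype.card_subtype]
    rfl
  have hprod : ∀ f : Fin n → K[X], ∏ j : {j : Fin n // p j}, f j.1 =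
      (((List.finRange n).filter fun j => decide (p j)).map f).prod := by
    intro f
    rw [← Finset.prod_subtype (Finset.univ.filter p) (by simp) f]
    rfl
  have h := permanent_rank_two (ι := {j : Fin n // p j}) (fun j => a j.1) (fun j => b j.1)
    (fun j => c j.1) (fun j => d j.1)
  refine Eq.trans h ?_
  unfold permVal
  rw [List.length_map, ← hcard]
  refine Finset.sum_congr rfl fun k _ => ?_
  rw [EE_eq_coeff, EE_eq_coeff, coefs_getD, coefs_getD, List.map_map, List.map_map,
    hprod (fun j => C (a j) * X + C (b j)), hprod (fun j => C (c j) * X + C (d j))]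
  rfl

theorem permanent_fin [IsDomain K] [CharZero K] {n : ℕ} (a b c d : Fin n → K) :
    Matrix.permanent (Matrix.of fun i j => a i * c j + b i * d j) =
    permVal ((List.finRange n).map fun j => (a j, b j))
      ((List.finRange n).map fun j => (c j, d j)) := by
  have hprod : ∀ f : Fin n → K[X], ∏ j : Fin n, f j = ((List.finRange n).map f).prod := by
    intro f
    rfl
  rw [permanent_rank_two]
  unfold permVal
  rw [List.length_map, List.length_finRange, Fintype.card_fin]
  refine Finset.sum_congr rfl fun k _ => ?_
  rw [EE_eq_coeff, EE_eq_coeff, coefs_getD, coefs_getD, List.map_map, List.map_map,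
    hprod (fun j => C (a j) * X + C (b j)), hprod (fun j => C (c j) * X + C (d j))]
  rfl

end Lists

lemma permanent_map {ι R S : Type*} [Fintype ι] [DecidableEq ι] [CommSemiring R] [CommSemiring S]
    (f : R →+* S) (M : Matrix ι ι R) : (M.map f).permanent = f M.permanent := by
  simp [Matrix.permanent, map_sum, map_prod]

end Pool.Agent.Lib.MP_395ab6_co
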