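import Pool.Agent.Lib.MP_395ab6_co.Wick

/-! Polynomials in one variable against the Gaussian weight. -/

namespace Pool.Agent.Lib.MP_395ab6_co

open Finset MeasureTheory Real Polynomial
open scoped ComplexConjugate

lemma poly_expand (p : ℂ[X]) {D : ℕ} (hD : p.natDegree < D) (z : ℂ) :
    ((‖p.eval z‖ ^ 2 * gw z : ℝ) : ℂ) = ∑ s ∈ range D, ∑ s' ∈ range D,
      (p.coeff s * conj (p.coeff s')) * (z ^ s * conj z ^ s' * (gw z : ℂ)) := by
  rw [Complex.ofReal_mul, ← Complex.normSq_eq_norm_sq, ← Complex.mul_conj, eval_eq_sum_range' hD,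
    map_sum, sum_mul_sum, sum_mul]
  refine sum_congr rfl fun s _ => ?_
  rw [sum_mul]
  refine sum_congr rfl fun s' _ => ?_
  rw [map_mul, map_pow]
  ring

lemma poly_integrable (p : ℂ[X]) : Integrable fun z : ℂ => ‖p.eval z‖ ^ 2 * gw z := by
  have h1 : Integrable fun z : ℂ => ((‖p.eval z‖ ^ 2 * gw z : ℝ) : ℂ) := by
    simp_rw [poly_expand p (Nat.lt_succ_self _)]
    exact integrable_finsetSum _ fun s _ => integrable_finsetSum _ fun s' _ =>
      (integrable_mom s s').const_mul _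
  simpa only [RCLike.re_to_complex, Complex.ofReal_re] using h1.re

lemma parseval (p : ℂ[X]) {D : ℕ} (hD : p.natDegree < D) :
    ∫ z : ℂ, ‖p.eval z‖ ^ 2 * gw z = ∑ s ∈ range D, (s.factorial : ℝ) * ‖p.coeff s‖ ^ 2 := by
  apply Complex.ofReal_injective
  rw [← integral_complex_ofReal]
  simp_rw [poly_expand p hD]
  rw [integral_finsetSum _ fun s _ => integrable_finsetSum _ fun s' _ =>
      (integrable_mom s s').const_mul _, Complex.ofReal_sum]
  refine sum_congr rfl fun s hs => ?_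
  rw [integral_finsetSum _ fun s' _ => (integrable_mom s s').const_mul _]
  simp_rw [integral_const_mul, integral_mom]
  rw [sum_eq_single_of_mem s hs fun s' _ h => by simp [h.symm], if_pos rfl, Complex.mul_conj,
    Complex.normSq_eq_norm_sq]
  push_cast
  ring

lemma le_X_mul (p : ℂ[X]) :
    ∫ z : ℂ, ‖p.eval z‖ ^ 2 * gw z ≤ ∫ z : ℂ, ‖(X * p).eval z‖ ^ 2 * gw z := by
  have h : (X * p).natDegree < p.natDegree + 1 + 1 := by
    have := natDegree_mul_le (p := X) (q := p)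
    rw [natDegree_X] at this
    omega
  rw [parseval p (Nat.lt_succ_self _), parseval _ h, sum_range_succ' _ (p.natDegree + 1)]
  simp only [coeff_X_mul]
  refine le_add_of_le_of_nonneg (sum_le_sum fun s _ => ?_) (by positivity)
  gcongr
  omega

lemma point_le (p : ℂ[X]) (z : ℂ) :
    ‖p.eval z‖ ^ 2 * gw z ≤ (∫ z : ℂ, ‖p.eval z‖ ^ 2 * gw z) / π := by
  rw [parseval p (Nat.lt_succ_self _)]
  set D := p.natDegree + 1
  have h1 : ‖p.eval z‖ ≤ ∑ s ∈ range D, ‖p.coeff s‖ * ‖z‖ ^ s := by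
    rw [eval_eq_sum_range]
    exact (norm_sum_le _ _).trans (le_of_eq (by simp [D]))
  have h2 : (∑ s ∈ range D, ‖p.coeff s‖ * ‖z‖ ^ s) ^ 2 ≤
      (∑ s ∈ range D, (s.factorial : ℝ) * ‖p.coeff s‖ ^ 2) *
        ∑ s ∈ range D, (‖z‖ ^ 2) ^ s / s.factorial := by
    refine sum_sq_le_sum_mul_sum_of_sq_le_mul _ (fun s _ => by positivity)
      (fun s _ => by positivity) fun s _ => le_of_eq ?_
    have : (s.factorial : ℝ) ≠ 0 := by positivity
    field_simp
    ring
  have h3 := Real.sum_le_exp_of_nonneg (sq_nonneg ‖z‖) D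
  have h4 : 0 ≤ ∑ s ∈ range D, (s.factorial : ℝ) * ‖p.coeff s‖ ^ 2 :=
    sum_nonneg fun s _ => by positivity
  have h5 : ‖p.eval z‖ ^ 2 ≤ (∑ s ∈ range D, (s.factorial : ℝ) * ‖p.coeff s‖ ^ 2) *
      rexp (‖z‖ ^ 2) :=
    ((pow_le_pow_left₀ (norm_nonneg _) h1 2).trans h2).trans (mul_le_mul_of_nonneg_left h3 h4)
  rw [gw, ← mul_div_assoc, Real.exp_neg]
  gcongr
  rwa [mul_inv_le_iff₀ (Real.exp_pos _)]

/-- A small disc around the zero of a linear form carries a small part of the mass. -/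
lemma near_le (p : ℂ[X]) (c u : ℂ) {δ : ℝ} (hδ : 0 < δ) :
    ∫ z : ℂ, (if ‖c * z + u‖ < δ * ‖c‖ then ‖p.eval z‖ ^ 2 * gw z else 0) ≤
      δ ^ 2 * ∫ z : ℂ, ‖p.eval z‖ ^ 2 * gw z := by
  have hI : 0 ≤ ∫ z : ℂ, ‖p.eval z‖ ^ 2 * gw z :=
    integral_nonneg fun z => mul_nonneg (sq_nonneg _) (gw_pos z).le
  by_cases hc : c = 0
  · simp only [hc, norm_zero, mul_zero, (norm_nonneg _).not_gt, if_false, integral_zero]
    positivity
  have h1 : ∀ z : ℂ, ‖c * z + u‖ < δ * ‖c‖ ↔ z ∈ Metric.ball (-u / c) δ := by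
    intro z
    have : c * z + u = c * (z - -u / c) := by field_simp; ring
    rw [this, norm_mul, mul_comm, mul_lt_mul_iff_left₀ (norm_pos_iff.2 hc), mem_ball_iff_norm]
  have h2 : ∫ z : ℂ, (if ‖c * z + u‖ < δ * ‖c‖ then ‖p.eval z‖ ^ 2 * gw z else 0) =
      ∫ z in Metric.ball (-u / c) δ, ‖p.eval z‖ ^ 2 * gw z := by
    rw [← integral_indicator Metric.isOpen_ball.measurableSet]
    refine integral_congr_ae (.of_forall fun z => ?_)
    by_cases h : z ∈ Metric.ball (-u / c) δ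
    · simp only [Set.indicator_of_mem h, if_pos ((h1 z).2 h)]
    · simp only [Set.indicator_of_notMem h, if_neg (mt (h1 z).1 h)]
  rw [h2]
  refine (Real.le_norm_self _).trans ((norm_setIntegral_le_of_norm_le_const (C :=
    (∫ z : ℂ, ‖p.eval z‖ ^ 2 * gw z) / π) measure_ball_lt_top fun z _ => ?_).trans (le_of_eq ?_))
  · rw [Real.norm_of_nonneg (mul_nonneg (sq_nonneg _) (gw_pos z).le)]
    exact point_le p z
  · rw [Measure.real, Complex.volume_ball]
    simp [ENNReal.toReal_ofReal hδ.le]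
    field_simp

end Pool.Agent.Lib.MP_395ab6_co
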