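import Pool.Agent.Lib.MP_395ab6_co.Log
import Pool.Agent.Lib.MP_395ab6_co.Fock

/-! Rings of sizes `m, m + 1, m + 2, …`: the sharp lower bound. -/

namespace Pool.Agent.Lib.MP_395ab6_co

open Finset MeasureTheory Real Polynomial

lemma exists_vectors' (n N : ℕ) (m : ℕ → ℕ) (hm : ∀ i, 0 < m i) (hN : ∑ i ∈ range N, m i ≤ n)
    (ρ : ℕ → ℝ) (hρ : ∀ i, 0 < ρ i) :
    ∃ a b : Fin n → ℂ, (∀ i, b i ≠ 0) ∧
      ∏ i, (C (a i) * X + C (b i)) = ∏ i ∈ range N, (X ^ m i - C ((ρ i : ℂ) ^ m i)) ∧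
      ∑ k, ‖a k‖ ^ 2 / ‖b k‖ ^ 2 = ∑ i ∈ range N, m i / ρ i ^ 2 := by
  have hc : Fintype.card ((Σ i : Fin N, Fin (m i)) ⊕ Fin (n - ∑ i ∈ range N, m i)) = n := by
    rw [Fintype.card_sum, Fintype.card_sigma, Fintype.card_fin]
    simp only [Fintype.card_fin]
    rw [Fin.sum_univ_eq_sum_range m N]
    omega
  let e := (Fintype.equivFinOfCardEq hc).symm
  let ζ : ℕ → ℂ := fun i => Complex.exp (2 * Real.pi * Complex.I / ((m i : ℕ) : ℂ))
  have hζ : ∀ i, IsPrimitiveRoot (ζ i) (m i) := fun i =>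
    Complex.isPrimitiveRoot_exp _ (hm i).ne'
  have hn : ∀ i, ‖ζ i‖ = 1 := fun i => (hζ i).norm'_eq_one (hm i).ne'
  let a' : (Σ i : Fin N, Fin (m i)) ⊕ Fin (n - ∑ i ∈ range N, m i) → ℂ :=
    Sum.elim (fun _ => 1) (fun _ => 0)
  let b' : (Σ i : Fin N, Fin (m i)) ⊕ Fin (n - ∑ i ∈ range N, m i) → ℂ :=
    Sum.elim (fun x => -(ζ x.1 ^ (x.2 : ℕ) * ρ x.1)) (fun _ => 1)
  refine ⟨fun i => a' (e i), fun i => b' (e i), fun i => ?_, ?_, ?_⟩
  · show b' (e i) ≠ 0
    rcases e i with x | x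
    · have h1 : ζ x.1 ≠ 0 := (hζ _).ne_zero (hm _).ne'
      have h2 : (ρ x.1 : ℂ) ≠ 0 := by exact_mod_cast (hρ _).ne'
      simp [b', h1, h2]
    · simp [b']
  · rw [e.prod_comp (fun x => C (a' x) * X + C (b' x)), Fintype.prod_sum_type, Fintype.prod_sigma,
      ← Fin.prod_univ_eq_prod_range (fun i => X ^ m i - C ((ρ i : ℂ) ^ m i)) N]
    simp only [a', b', Sum.elim_inl, Sum.elim_inr, map_zero, zero_mul, zero_add, map_one,
      prod_const_one, mul_one, one_mul]
    refine prod_congr rfl fun i _ => ?_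
    rw [X_pow_sub_C_eq_prod (hζ i) (hm i) rfl,
      ← Fin.prod_univ_eq_prod_range (fun j => X - C (ζ i ^ j * ρ i))]
    simp [sub_eq_add_neg]
  · rw [e.sum_comp (fun x => ‖a' x‖ ^ 2 / ‖b' x‖ ^ 2), Fintype.sum_sum_type, Fintype.sum_sigma,
      ← Fin.sum_univ_eq_sum_range (fun i => m i / ρ i ^ 2) N]
    simp [a', b', hn, div_eq_mul_inv]

/-- Triangular numbers. -/
noncomputable def tri (i : ℕ) : ℝ := i * (i + 1) / 2

lemma budget_aux {x : ℝ} (hx : 0 < x) (k : ℕ) :
    ∑ i ∈ range (k + 1), (i : ℝ) * log⁺ (x / tri i) ≤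
      if tri k ≤ x then tri k * (1 + log (x / tri k)) else x := by
  induction k with
  | zero => simp [tri, hx.le]
  | succ k ih =>
    have hb : 0 < tri (k + 1) := by
      unfold tri
      positivity
    have ha : 0 ≤ tri k := by
      unfold tri
      positivity
    have hd : ((k + 1 : ℕ) : ℝ) = tri (k + 1) - tri k := by
      unfold tri
      push_cast
      ring
    have hk : (0 : ℝ) < ((k + 1 : ℕ) : ℝ) := by positivity
    rw [sum_range_succ]
    split_ifs with h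
    · rw [if_pos (by linarith)] at ih
      have h1 : 1 ≤ x / tri (k + 1) := (one_le_div hb).2 h
      rw [posLog_eq_log (by rwa [abs_of_pos (by positivity)]), hd]
      have h2 : tri k * log (x / tri k) ≤ tri k * log (x / tri (k + 1)) + (tri (k + 1) - tri k) := by
        rcases ha.eq_or_lt with h0 | h0
        · rw [← h0]
          simp [hb.le]
        · have h3 := Real.log_le_sub_one_of_pos (div_pos hb h0)
          have h4 : log (x / tri k) = log (x / tri (k + 1)) + log (tri (k + 1) / tri k) := by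
            rw [← Real.log_mul (by positivity) (by positivity)]
            congr 1
            field_simp
          have h5 : tri k * (tri (k + 1) / tri k - 1) = tri (k + 1) - tri k := by field_simp
          rw [h4, mul_add, ← h5]
          gcongr
      linarith
    · have h1 : log⁺ (x / tri (k + 1)) = 0 := by
        rw [posLog_eq_zero_iff, abs_of_pos (by positivity), div_le_one hb]
        exact (not_le.1 h).le
      rw [h1, mul_zero, add_zero]
      refine ih.trans ?_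
      split_ifs with h2
      · rcases ha.eq_or_lt with h0 | h0
        · rw [← h0]
          simp [hx.le]
        · have h3 := Real.log_le_sub_one_of_pos (div_pos hx h0)
          calc _ ≤ tri k * (x / tri k) := by gcongr; linarith
            _ = x := by field_simp
      · exact le_rfl

lemma budget {x : ℝ} (hx : 0 ≤ x) (m N : ℕ) :
    ∑ i ∈ range N, ((m + i : ℕ) : ℝ) * log⁺ (x / tri (m + i)) ≤ x := by
  rcases hx.eq_or_lt with rfl | hx
  · simp
  have h1 : ∑ i ∈ range (m + N + 1 + 1), (i : ℝ) * log⁺ (x / tri i) ≤ x := by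
    refine (budget_aux hx _).trans ?_
    have h0 : 0 < tri (m + N + 1) := by
      unfold tri
      positivity
    split_ifs with h2
    · have h3 := Real.log_le_sub_one_of_pos (div_pos hx h0)
      calc _ ≤ tri (m + N + 1) * (x / tri (m + N + 1)) := by gcongr; linarith
        _ = x := by field_simp
    · exact le_rfl
  have hp : ∀ i : ℕ, 0 ≤ (i : ℝ) * log⁺ (x / tri i) := fun i =>
    mul_nonneg i.cast_nonneg posLog_nonneg
  rw [sum_range_succ, sum_range_succ, sum_range_add] at h1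
  have h2 : 0 ≤ ∑ i ∈ range m, (i : ℝ) * log⁺ (x / tri i) := sum_nonneg fun i _ => hp i
  linarith [hp (m + N), hp (m + N + 1)]

lemma ring_eval {θ ρ y : ℝ} (hθ : 0 < θ) (hρ : 0 < ρ) (w : ℂ) (k : ℕ)
    (hw : ‖w‖ ^ 2 = θ ^ 2 * ρ ^ 2 * y) :
    ‖w ^ k - (ρ : ℂ) ^ k‖ ^ 2 ≤ ‖(ρ : ℂ) ^ k‖ ^ 2 * rexp (2 * θ ^ k + k * log⁺ y) := by
  set E := rexp (log⁺ y / 2) with hE
  have hE1 : 1 ≤ E := Real.one_le_exp (div_nonneg posLog_nonneg two_pos.le)
  have hE2 : E ^ 2 = rexp (log⁺ y) := by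
    rw [hE, ← Real.exp_nat_mul]
    congr 1
    push_cast
    ring
  have h1 : y ≤ E ^ 2 := by
    rw [hE2]
    exact (Real.le_exp_log y).trans (Real.exp_le_exp.2 (le_max_right _ _))
  have h2 : ‖w‖ ≤ θ * ρ * E := by
    refine le_of_sq_le_sq ?_ (by positivity)
    rw [hw, mul_pow, mul_pow]
    gcongr
  have h3 : ‖(ρ : ℂ) ^ k‖ = ρ ^ k := by simp [abs_of_pos hρ]
  have h4 : ‖w ^ k - (ρ : ℂ) ^ k‖ ≤ ρ ^ k * (rexp (θ ^ k) * E ^ k) := by
    have h5 : 1 ≤ E ^ k := one_le_pow₀ hE1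
    calc _ ≤ ‖w‖ ^ k + ρ ^ k := (norm_sub_le _ _).trans (by rw [h3, norm_pow])
      _ ≤ (θ * ρ * E) ^ k + ρ ^ k * E ^ k := by
          gcongr
          exact le_mul_of_one_le_right (by positivity) h5
      _ = ρ ^ k * ((θ ^ k + 1) * E ^ k) := by rw [mul_pow, mul_pow]; ring
      _ ≤ _ := by gcongr; exact Real.add_one_le_exp _
  refine (pow_le_pow_left₀ (norm_nonneg _) h4 2).trans (le_of_eq ?_)
  rw [h3, mul_pow, mul_pow, ← pow_mul E, mul_comm k 2, pow_mul, hE2, ← Real.exp_nat_mul,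
    ← Real.exp_nat_mul, ← Real.exp_add]
  norm_num

lemma low_coeff (τ : ℕ → ℂ) (m N s : ℕ) (h0 : 0 < s) (hs : s < m) :
    (∏ i ∈ range N, (X ^ (m + i) - C (τ i))).coeff s = 0 := by
  induction N with
  | zero => simp [coeff_one, h0.ne']
  | succ N ih =>
    rw [prod_range_succ, mul_sub, coeff_sub, coeff_mul_C, coeff_mul_X_pow', ih,
      if_neg (by omega)]
    simp

lemma weight_integrable {θ : ℝ} (hθ : θ < 1) :
    Integrable fun z : ℂ => ‖z‖ ^ 2 * rexp (θ * ‖z‖ ^ 2) * gw z := by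
  have hb : 0 < 1 - θ := by linarith
  have h := Complex.integral_rpow_mul_exp_neg_mul_rpow (p := 2) (q := 2) (b := 1 - θ) (by norm_num)
    (by norm_num) hb
  have h1 : Integrable fun x : ℂ => ‖x‖ ^ (2 : ℝ) * rexp (-(1 - θ) * ‖x‖ ^ (2 : ℝ)) := by
    refine Integrable.of_integral_ne_zero ?_
    rw [h]
    have := Real.Gamma_pos_of_pos (show (0 : ℝ) < (2 + 2) / 2 by norm_num)
    positivity
  refine (h1.div_const π).congr (.of_forall fun z => ?_)
  simp only [rpow_ofNat, gw]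
  rw [mul_assoc, ← mul_div_assoc, ← Real.exp_add, mul_div_assoc]
  congr 3
  ring

theorem lower {θ : ℝ} (hθ : 0 < θ) (hθ1 : θ < 1) : ∃ K : ℝ, 0 ≤ K ∧ ∀ m n N : ℕ, 1 ≤ m → 1 ≤ n →
    ((∑ i ∈ range N, (m + i) : ℕ) : ℝ) ≤ (1 - θ) * n →
    ∃ a b : Fin (n + 1) → ℂ, 0 < (gram a b).permanent.re ∧
      θ ^ 6 * (∑ i ∈ range N, 2 / ((m + i : ℕ) + 1 : ℝ)) * (gram a b).permanent.re ≤
      (1 + θ ^ (2 * m) * K) * ∑ k ∈ (univ : Finset (Fin (n + 1))).erase 0, ‖gram a b 0 k‖ ^ 2 *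
          ((gram a b).submatrix (fun j : {j : Fin (n + 1) // j ≠ 0 ∧ j ≠ k} => j.1)
            (fun j : {j : Fin (n + 1) // j ≠ 0 ∧ j ≠ k} => j.1)).permanent.re := by
  set K := rexp (2 / (1 - θ)) * ∫ z : ℂ, ‖z‖ ^ 2 * rexp (θ * ‖z‖ ^ 2) * gw z with hK
  have hK0 : 0 ≤ K := mul_nonneg (Real.exp_pos _).le
    (integral_nonneg fun z => mul_nonneg (by positivity) (gw_pos z).le)
  refine ⟨K, hK0, fun m n N hm hn hD => ?_⟩
  have hn0 : (0 : ℝ) < n := by exact_mod_cast hn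
  have hDn : ∑ i ∈ range N, (m + i) ≤ n := by
    have : ((∑ i ∈ range N, (m + i) : ℕ) : ℝ) ≤ n := hD.trans (by nlinarith)
    exact_mod_cast this
  have ht : ∀ i, 0 < tri (m + i) := fun i => by
    have : 0 < m + i := by omega
    unfold tri
    positivity
  let ρ : ℕ → ℝ := fun i => √(tri (m + i) / (θ ^ 6 * n))
  have hρ : ∀ i, 0 < ρ i := fun i => Real.sqrt_pos.2 (div_pos (ht i) (by positivity))
  have hρ2 : ∀ i, ρ i ^ 2 = tri (m + i) / (θ ^ 6 * n) := fun i =>
    Real.sq_sqrt (div_pos (ht i) (by positivity)).le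
  obtain ⟨a, b, hb, hq, hs⟩ := exists_vectors' n N (fun i => m + i) (fun i => by omega) hDn ρ hρ
  set q : ℂ[X] := ∏ i ∈ range N, (X ^ (m + i) - C ((ρ i : ℂ) ^ (m + i))) with hqd
  have hb0 : q.coeff 0 ≠ 0 := by
    rw [← hq]
    simpa [coeff_zero_prod, prod_ne_zero_iff] using hb
  have hP : ∏ i, ‖b i‖ ^ 2 = ‖q.coeff 0‖ ^ 2 := by
    rw [← hq]
    simp [coeff_zero_prod, prod_pow]
  have hP' : ‖q.coeff 0‖ ^ 2 = ∏ i ∈ range N, ‖(ρ i : ℂ) ^ (m + i)‖ ^ 2 := by
    have h : ∀ i, ¬0 = m + i := fun i => by omega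
    simp only [hqd, coeff_zero_prod, norm_prod, ← prod_pow, coeff_sub, coeff_C_zero, coeff_X_pow,
      if_neg (h _), zero_sub, norm_neg]
  set P := ‖q.coeff 0‖ ^ 2 with hPd
  have hP0 : 0 < P := by positivity
  have hdeg : q.natDegree ≤ ∑ i ∈ range N, (m + i) :=
    (natDegree_prod_le _ _).trans (sum_le_sum fun i _ => natDegree_X_pow_sub_C.le)
  set α := √(1 / (θ ^ 3 * n)) with hα
  have hα0 : 0 < α := Real.sqrt_pos.2 (by positivity)
  have hα2 : α ^ 2 = 1 / (θ ^ 3 * n) := Real.sq_sqrt (by positivity)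
  have hev : ∀ z : ℂ, ‖q.eval (α * z)‖ ^ 2 ≤ P * (rexp (2 / (1 - θ)) * rexp (θ * ‖z‖ ^ 2)) := by
    intro z
    have h1 : ∀ i ∈ range N, ‖(α * z) ^ (m + i) - (ρ i : ℂ) ^ (m + i)‖ ^ 2 ≤
        ‖(ρ i : ℂ) ^ (m + i)‖ ^ 2 *
          rexp (2 * θ ^ (m + i) + (m + i : ℕ) * log⁺ (θ * ‖z‖ ^ 2 / tri (m + i))) := by
      intro i _
      refine ring_eval hθ (hρ i) _ _ ?_
      have := (ht i).ne'
      rw [norm_mul, mul_pow, Complex.norm_real, Real.norm_eq_abs, sq_abs, hα2, hρ2]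
      field_simp
    have h2 := prod_le_prod (fun _ _ => sq_nonneg _) h1
    rw [prod_mul_distrib, ← hP', ← Real.exp_sum, sum_add_distrib, ← mul_sum] at h2
    have h3 := budget (x := θ * ‖z‖ ^ 2) (by positivity) m N
    have h4 : ∑ i ∈ range N, θ ^ (m + i) ≤ 1 / (1 - θ) := by
      have h5 := geom_sum_Ico_le_of_lt_one (m := m) (n := m + N) hθ.le hθ1
      rw [sum_Ico_eq_sum_range, Nat.add_sub_cancel_left] at h5
      refine h5.trans (div_le_div_of_nonneg_right (pow_le_one₀ hθ.le hθ1.le) (by linarith))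
    refine le_trans (le_of_eq ?_) (h2.trans ?_)
    · simp [hqd, eval_prod, prod_pow]
    · rw [← Real.exp_add]
      gcongr
      rw [div_eq_mul_one_div]
      gcongr
  have hsum : ∑ s ∈ range (n + 1), ((s + 1).factorial : ℝ) * (‖q.coeff s‖ ^ 2 * (α ^ 2) ^ s) ≤
      P * K := by
    have h1 : (X * q.comp (C (α : ℂ) * X)).natDegree < n + 1 + 1 := by
      have h2 := natDegree_mul_le (p := X) (q := q.comp (C (α : ℂ) * X))
      have h3 := natDegree_comp_le (p := q) (q := C (α : ℂ) * X)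
      have h4 : (C (α : ℂ) * X).natDegree ≤ 1 := (natDegree_C_mul_le _ _).trans natDegree_X_le
      have h5 := Nat.mul_le_mul_left q.natDegree h4
      rw [natDegree_X] at h2
      omega
    have h2 := parseval _ h1
    rw [sum_range_succ'] at h2
    simp only [coeff_X_mul, comp_C_mul_X_coeff, coeff_X_mul_zero, norm_zero, norm_mul, norm_pow,
      Complex.norm_real, Real.norm_eq_abs, abs_of_pos hα0, mul_pow, ← pow_mul] at h2
    simp only [← pow_mul, mul_comm 2]
    refine le_trans (le_of_eq (by simpa using h2.symm)) (b := ∫ z : ℂ,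
      ‖(X * q.comp (C (α : ℂ) * X)).eval z‖ ^ 2 * gw z) ?_
    rw [hK, ← mul_assoc, ← integral_const_mul]
    refine integral_mono (poly_integrable _) ((weight_integrable hθ1).const_mul _) fun z => ?_
    have := mul_le_mul_of_nonneg_left (hev z) (mul_nonneg (sq_nonneg ‖z‖) (gw_pos z).le)
    simp only [eval_mul, eval_X, eval_comp, eval_C, norm_mul, mul_pow]
    linarith
  have hterm : ∀ s ∈ range (n + 1), (((s + 1).factorial * (n - s).factorial : ℕ) : ℝ) *
      ‖q.coeff s‖ ^ 2 ≤ (if s = 0 then n.factorial * P else 0) + n.factorial * θ ^ (2 * m) *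
        (((s + 1).factorial : ℝ) * (‖q.coeff s‖ ^ 2 * (α ^ 2) ^ s)) := by
    intro s hs
    by_cases h0 : s = 0
    · subst h0
      refine le_add_of_le_of_nonneg (by simp [hPd]) (by positivity)
    rw [if_neg h0, zero_add]
    by_cases hc : q.coeff s = 0
    · simp [hc]
    have h1 : m ≤ s := not_lt.1 fun h => hc (low_coeff _ m N s (by omega) h)
    have h2 : s ≤ ∑ i ∈ range N, (m + i) := (le_natDegree_of_ne_zero hc).trans hdeg
    have hsn : s ≤ n := by omega
    have h3 : (n + 1 - s) ^ s * (n - s).factorial ≤ n.factorial := by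
      rw [← Nat.factorial_mul_descFactorial hsn, mul_comm]
      exact Nat.mul_le_mul_left _ (Nat.pow_sub_le_descFactorial n s)
    have h4 : θ * n ≤ ((n + 1 - s : ℕ) : ℝ) := by
      have h5 : (s : ℝ) ≤ ((∑ i ∈ range N, (m + i) : ℕ) : ℝ) := by exact_mod_cast h2
      rw [Nat.cast_sub (by omega)]
      push_cast at h5 hD ⊢
      linarith
    have h5 : (θ * n) ^ s * (n - s).factorial ≤ n.factorial :=
      calc _ ≤ ((n + 1 - s : ℕ) : ℝ) ^ s * (n - s).factorial := by gcongr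
        _ ≤ _ := by exact_mod_cast h3
    have h6 : θ ^ (2 * s) ≤ θ ^ (2 * m) := pow_le_pow_of_le_one hθ.le hθ1.le (by omega)
    have h7 : ((n - s).factorial : ℝ) ≤ n.factorial * θ ^ (2 * m) * (α ^ 2) ^ s := by
      have h8 : (θ * n) ^ s * θ ^ (2 * s) * (α ^ 2) ^ s = 1 := by
        rw [pow_mul, ← mul_pow, ← mul_pow, hα2]
        have : θ * n * θ ^ 2 * (1 / (θ ^ 3 * n)) = 1 := by field_simp
        rw [this, one_pow]
      calc ((n - s).factorial : ℝ)
          = ((θ * n) ^ s * (n - s).factorial) * θ ^ (2 * s) * (α ^ 2) ^ s := by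
            linear_combination (-((n - s).factorial : ℝ)) * h8
        _ ≤ _ := by gcongr
    have h9 := mul_le_mul_of_nonneg_left h7
      (by positivity : 0 ≤ ((s + 1).factorial : ℝ) * ‖q.coeff s‖ ^ 2)
    push_cast
    linarith
  have hle := sum_le_sum hterm
  rw [sum_add_distrib, sum_ite_eq', if_pos (mem_range.2 n.succ_pos), ← mul_sum] at hle
  have hf0 : (0 : ℝ) < n.factorial := by exact_mod_cast n.factorial_pos
  have hper : (gram (Fin.cons 1 a : Fin (n + 1) → ℂ) (Fin.cons 0 b)).permanent.re ≤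
      n.factorial * P * (1 + θ ^ (2 * m) * K) := by
    rw [cons_per, hq]
    have := mul_le_mul_of_nonneg_left hsum (by positivity : 0 ≤ n.factorial * θ ^ (2 * m))
    linarith
  refine ⟨Fin.cons 1 a, Fin.cons 0 b, ?_, ?_⟩
  · rw [cons_per, hq]
    exact sum_pos' (fun _ _ => by positivity) ⟨0, mem_range.2 n.succ_pos, by positivity⟩
  refine le_trans ?_ (mul_le_mul_of_nonneg_left (cons_sum a b hb) (by positivity))
  have hS : 0 ≤ ∑ i ∈ range N, 2 / ((m + i : ℕ) + 1 : ℝ) := sum_nonneg fun _ _ => by positivity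
  refine (mul_le_mul_of_nonneg_left hper (by positivity)).trans (le_of_eq ?_)
  have hfac : (n : ℝ) * (n - 1).factorial = n.factorial := by
    exact_mod_cast Nat.mul_factorial_pred (by omega)
  have hs' : ∑ i ∈ range N, ((m + i : ℕ) : ℝ) / ρ i ^ 2 =
      θ ^ 6 * n * ∑ i ∈ range N, 2 / ((m + i : ℕ) + 1 : ℝ) := by
    rw [mul_sum]
    refine sum_congr rfl fun i _ => ?_
    have : ((m + i : ℕ) : ℝ) ≠ 0 := by
      have : 0 < m + i := by omega
      positivity
    rw [hρ2, tri]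
    field_simp
  rw [hP, hs, hs', ← hfac]
  ring

end Pool.Agent.Lib.MP_395ab6_co
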