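import Pool.Agent.Lib.MP_395ab6_co.Upper
import Pool.Agent.Lib.MP_395ab6_co.Lower

/-! The two bounds in asymptotic form. -/

namespace Pool.Agent.Lib.MP_395ab6_co

open Finset Real Filter Topology
open scoped ComplexOrder

/-- The left side of the inequality. -/
noncomputable def lhs {n : ℕ} (A : Matrix (Fin (n + 1)) (Fin (n + 1)) ℂ) : ℝ :=
  ∑ k ∈ (univ : Finset (Fin (n + 1))).erase 0,
    ‖A 0 k‖ ^ 2 * (A.submatrix (fun j : {j : Fin (n + 1) // j ≠ 0 ∧ j ≠ k} => j.1)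
      (fun j : {j : Fin (n + 1) // j ≠ 0 ∧ j ≠ k} => j.1)).permanent.re

lemma upper_log {x : ℝ} (hx : 0 < x) (hx1 : x < 1) : ∃ c : ℝ, ∀ (n : ℕ)
    (A : Matrix (Fin (n + 1)) (Fin (n + 1)) ℂ), A.PosSemidef → 0 ≤ A.permanent.re ∧
      lhs A ≤ ((1 + x) ^ 2 / (1 - x ^ 2) * log (n + 1) + c) * A.permanent.re := by
  set q := 1 + x with hq
  have hq1 : 1 < q := by linarith
  have hq0 : 0 < q := by linarith
  have hl : 0 < log q := Real.log_pos hq1
  have hd : 0 < 1 - x ^ 2 := by nlinarith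
  refine ⟨(q * (q - 1) + q ^ 2 + 1 / x ^ 2) / (1 - x ^ 2), fun n A hA => ?_⟩
  have hL : 0 ≤ log ((n : ℝ) + 1) := Real.log_nonneg (by linarith [n.cast_nonneg (α := ℝ)])
  set J := ⌈log (n + 1) / log q⌉₊ with hJ
  have h1 : (n : ℝ) ≤ q ^ J := by
    have h2 : log (n + 1) ≤ J * log q := (div_le_iff₀ hl).1 (Nat.le_ceil _)
    rw [← Real.log_pow, Real.log_le_log_iff (by positivity) (by positivity)] at h2
    linarith
  obtain ⟨h2, h3⟩ := upper A hA hq1 hx hx1 J h1
  refine ⟨h2, h3.trans (mul_le_mul_of_nonneg_right ?_ h2)⟩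
  have h4 : (J : ℝ) ≤ log (n + 1) / log q + 1 := (Nat.ceil_lt_add_one (by positivity)).le
  have h5 : q - 1 ≤ q * log q := by
    have := mul_le_mul_of_nonneg_left (Real.one_sub_inv_le_log_of_pos hq0) hq0.le
    rwa [mul_sub, mul_one, mul_inv_cancel₀ hq0.ne'] at this
  have h6 : log (n + 1) / log q * (q * (q - 1)) ≤ q ^ 2 * log (n + 1) :=
    calc _ ≤ log (n + 1) / log q * (q * (q * log q)) := by gcongr
      _ = _ := by field_simp
  have h7 := mul_le_mul_of_nonneg_right h4 (mul_nonneg hq0.le (by linarith : 0 ≤ q - 1))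
  rw [div_mul_eq_mul_div, ← add_div]
  exact div_le_div_of_nonneg_right (by linarith) hd.le

lemma harm (m N : ℕ) : log (m + N + 1) - log (m + 1) ≤
    ∑ i ∈ range N, 1 / ((m + i : ℕ) + 1 : ℝ) := by
  induction N with
  | zero => simp
  | succ N ih =>
    rw [sum_range_succ]
    have h0 : (0 : ℝ) < m + N + 1 := by positivity
    have h1 := Real.log_le_sub_one_of_pos (show (0 : ℝ) < (m + N + 1 + 1) / (m + N + 1) by positivity)
    rw [Real.log_div (by positivity) h0.ne'] at h1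
    have h2 : ((m : ℝ) + N + 1 + 1) / (m + N + 1) - 1 = 1 / (m + N + 1) := by
      field_simp
      ring
    push_cast at ih ⊢
    rw [← add_assoc]
    linarith

lemma lower_log {a : ℝ} (ha : a < 1) : ∃ l c : ℝ, a < l ∧ ∀ n : ℕ, 1 ≤ n →
    ∃ A : Matrix (Fin (n + 1)) (Fin (n + 1)) ℂ, A.PosSemidef ∧ 0 < A.permanent.re ∧
      (l * log (n + 1) - c) * A.permanent.re ≤ lhs A := by
  obtain ⟨θ, h1, hθ, hθ1⟩ : ∃ θ : ℝ, a < θ ^ 6 ∧ 0 < θ ∧ θ < 1 := by
    have h : Tendsto (fun θ : ℝ => θ ^ 6) (𝓝[<] 1) (𝓝 (1 ^ 6)) :=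
      ((continuous_pow 6).tendsto 1).mono_left nhdsWithin_le_nhds
    exact ((h.eventually (lt_mem_nhds (by simpa using ha))).and
      (Ioo_mem_nhdsLT (show (0 : ℝ) < 1 by norm_num))).exists
  obtain ⟨K, hK, H⟩ := lower hθ hθ1
  obtain ⟨m, h2, hm⟩ : ∃ m : ℕ, a < θ ^ 6 / (1 + θ ^ (2 * m) * K) ∧ 1 ≤ m := by
    have h : Tendsto (fun m : ℕ => θ ^ 6 / (1 + (θ ^ 2) ^ m * K)) atTop
        (𝓝 (θ ^ 6 / (1 + 0 * K))) :=
      tendsto_const_nhds.div (((tendsto_pow_atTop_nhds_zero_of_lt_one (by positivity)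
        (by nlinarith)).mul_const K).const_add 1) (by simp)
    simp only [← pow_mul] at h
    exact ((h.eventually (lt_mem_nhds (by simpa using h1))).and (eventually_ge_atTop 1)).exists
  have hd : 0 < 1 + θ ^ (2 * m) * K := by positivity
  set l := θ ^ 6 / (1 + θ ^ (2 * m) * K) with hl
  have hl0 : 0 < l := by positivity
  have ht : 0 < 1 - θ := by linarith
  refine ⟨l, l * (log 2 - log (1 - θ) + 2 * log (m + 1)), h2, fun n hn => ?_⟩
  have hn0 : (1 : ℝ) ≤ n := by exact_mod_cast hn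
  set R := Nat.sqrt ⌊(1 - θ) * n⌋₊ with hR
  have h3 : ((∑ i ∈ range (R - m), (m + i) : ℕ) : ℝ) ≤ (1 - θ) * n := by
    have h4 : ∑ i ∈ range (R - m), (m + i) ≤ R * R := by
      refine (sum_le_card_nsmul _ _ R fun i hi => ?_).trans ?_
      · have := mem_range.1 hi
        omega
      · rw [card_range, smul_eq_mul]
        exact Nat.mul_le_mul_right _ (Nat.sub_le _ _)
    exact (Nat.cast_le.2 (h4.trans (Nat.sqrt_le _))).trans (Nat.floor_le (by positivity))
  obtain ⟨u, v, h4, h5⟩ := H m n (R - m) hm hn h3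
  refine ⟨gram u v, gram_psd u v, h4, ?_⟩
  have h6 : (1 - θ) * n ≤ ((R : ℝ) + 1) ^ 2 := by
    have h7 : ⌊(1 - θ) * n⌋₊ + 1 ≤ (R + 1) * (R + 1) := Nat.lt_succ_sqrt _
    have h8 : ((⌊(1 - θ) * n⌋₊ : ℝ) + 1) ≤ (R + 1) * (R + 1) := by exact_mod_cast h7
    nlinarith [Nat.lt_floor_add_one ((1 - θ) * n)]
  have h7 := Real.log_le_log (by positivity) h6
  rw [Real.log_mul ht.ne' (by positivity), Real.log_pow] at h7
  have h8 : log ((n : ℝ) + 1) ≤ log 2 + log n := by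
    rw [← Real.log_mul (by norm_num) (by positivity)]
    exact Real.log_le_log (by positivity) (by linarith)
  have h9 : log ((R : ℝ) + 1) ≤ log (m + (R - m : ℕ) + 1) := by
    refine Real.log_le_log (by positivity) ?_
    have : R ≤ m + (R - m) := by omega
    have : (R : ℝ) ≤ m + (R - m : ℕ) := by exact_mod_cast this
    linarith
  have h10 := harm m (R - m)
  have h11 : ∑ i ∈ range (R - m), 2 / ((m + i : ℕ) + 1 : ℝ) =
      2 * ∑ i ∈ range (R - m), 1 / ((m + i : ℕ) + 1 : ℝ) := by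
    rw [mul_sum]
    exact sum_congr rfl fun _ _ => by ring
  have h12 : log (n + 1) - (log 2 - log (1 - θ) + 2 * log (m + 1)) ≤
      ∑ i ∈ range (R - m), 2 / ((m + i : ℕ) + 1 : ℝ) := by
    rw [h11]
    push_cast at h7
    linarith
  rw [← mul_sub]
  refine (mul_le_mul_of_nonneg_right (mul_le_mul_of_nonneg_left h12 hl0.le) h4.le).trans ?_
  rw [hl, div_mul_eq_mul_div, div_mul_eq_mul_div, div_le_iff₀' hd]
  exact h5

theorem best_constant : ∃ K : ℕ → ℝ,
    (∀ n, IsLeast {C : ℝ | ∀ A : Matrix (Fin (n + 1)) (Fin (n + 1)) ℂ, A.PosSemidef →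
      lhs A ≤ C * A.permanent.re} (K n)) ∧
    Tendsto (fun n : ℕ => K n / log (n + 1)) atTop (𝓝 1) := by
  have hK : ∀ n, IsLeast {C : ℝ | ∀ A : Matrix (Fin (n + 1)) (Fin (n + 1)) ℂ, A.PosSemidef →
      lhs A ≤ C * A.permanent.re} (sInf {C : ℝ | ∀ A : Matrix (Fin (n + 1)) (Fin (n + 1)) ℂ,
        A.PosSemidef → lhs A ≤ C * A.permanent.re}) := by
    intro n
    refine IsClosed.isLeast_csInf ?_ ?_ ⟨lhs (1 : Matrix (Fin (n + 1)) (Fin (n + 1)) ℂ), ?_⟩
    · simp only [Set.ofPred_forall]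
      exact isClosed_iInter fun A => isClosed_iInter fun _ =>
        isClosed_le continuous_const (by fun_prop)
    · obtain ⟨c, hc⟩ := upper_log (x := 1 / 2) (by norm_num) (by norm_num)
      exact ⟨_, fun A hA => (hc n A hA).2⟩
    · intro C hC
      simpa using hC 1 Matrix.PosSemidef.one
  refine ⟨_, hK, ?_⟩
  have hlog : Tendsto (fun n : ℕ => log ((n : ℝ) + 1)) atTop atTop :=
    Real.tendsto_log_atTop.comp (tendsto_natCast_atTop_atTop.atTop_add tendsto_const_nhds)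
  have hpos := hlog.eventually (eventually_gt_atTop 0)
  rw [tendsto_order]
  constructor
  · intro a ha
    obtain ⟨l, c, hl, H⟩ := lower_log ha
    have h : Tendsto (fun n : ℕ => l - c / log ((n : ℝ) + 1)) atTop (𝓝 (l - 0)) :=
      (hlog.const_div_atTop c).const_sub l
    filter_upwards [h.eventually (lt_mem_nhds (by simpa using hl)), hpos, eventually_ge_atTop 1]
      with n h1 h2 h3
    obtain ⟨A, hA, h4, h5⟩ := H n h3
    have h6 := le_of_mul_le_mul_right (h5.trans ((hK n).1 A hA)) h4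
    refine h1.trans_le ?_
    rw [le_div_iff₀ h2, sub_mul, div_mul_cancel₀ _ h2.ne']
    exact h6
  · intro b hb
    obtain ⟨x, h1, hx, hx1⟩ : ∃ x : ℝ, (1 + x) ^ 2 / (1 - x ^ 2) < b ∧ 0 < x ∧ x < 1 := by
      have h : Tendsto (fun x : ℝ => (1 + x) ^ 2 / (1 - x ^ 2)) (𝓝[>] 0)
          (𝓝 ((1 + 0) ^ 2 / (1 - 0 ^ 2))) :=
        (ContinuousAt.tendsto (f := fun x : ℝ => (1 + x) ^ 2 / (1 - x ^ 2))
          (ContinuousAt.div (by fun_prop) (by fun_prop) (by norm_num))).mono_left nhdsWithin_le_nhds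
      exact ((h.eventually (gt_mem_nhds (by simpa using hb))).and
        (Ioo_mem_nhdsGT (show (0 : ℝ) < 1 by norm_num))).exists
    obtain ⟨c, hc⟩ := upper_log hx hx1
    have h : Tendsto (fun n : ℕ => (1 + x) ^ 2 / (1 - x ^ 2) + c / log ((n : ℝ) + 1)) atTop
        (𝓝 ((1 + x) ^ 2 / (1 - x ^ 2) + 0)) := (hlog.const_div_atTop c).const_add _
    filter_upwards [h.eventually (gt_mem_nhds (by simpa using h1)), hpos] with n h2 h3
    have h4 := (hK n).2 fun A hA => (hc n A hA).2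
    refine lt_of_le_of_lt ?_ h2
    rw [div_le_iff₀ h3, add_mul, div_mul_cancel₀ _ h3.ne']
    exact h4

end Pool.Agent.Lib.MP_395ab6_co
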