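import Pool.Agent.Lib.MP_395ab6_co.Fock

/-! The mean number of zeros near a point drawn from the weight of the polynomial. -/

namespace Pool.Agent.Lib.MP_395ab6_co

open Finset MeasureTheory Real Polynomial

lemma factor_le (c u w : ℂ) {t : ℝ} (ht : 0 < t) (h : c * w + u ≠ 0) :
    2 * π * (log ‖c * w + u‖ + log⁺ (t * ‖c‖ / ‖c * w + u‖)) =
      ∫ θ in (0 : ℝ)..2 * π, log ‖c * circleMap w t θ + u‖ := by
  by_cases hc : c = 0
  · simp [hc]
  have hc0 := norm_pos_iff.2 hc
  have hx := norm_pos_iff.2 h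
  have hR : 0 < ‖c‖ * t := by positivity
  have h1 := circleAverage_log_norm_sub_const_eq_log_radius_add_posLog (a := 0) (c := c * w + u)
    hR.ne'
  rw [circleAverage_eq_integral_add (Complex.arg c)] at h1
  have h2 : ∀ θ : ℝ, circleMap (c * w + u) (‖c‖ * t) (θ + Complex.arg c) - 0 =
      c * circleMap w t θ + u := by
    intro θ
    have := Complex.norm_mul_exp_arg_mul_I c
    rw [circleMap, circleMap, Complex.ofReal_add, add_mul, Complex.exp_add, Complex.ofReal_mul]
    linear_combination (t * Complex.exp (θ * Complex.I)) * this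
  simp only [h2, smul_eq_mul, sub_zero (c * w + u)] at h1
  rw [inv_mul_eq_iff_eq_mul₀ (by positivity)] at h1
  rw [h1]
  have h3 := posLog_sub_posLog_inv (x := (‖c‖ * t)⁻¹ * ‖c * w + u‖)
  have h4 : ((‖c‖ * t)⁻¹ * ‖c * w + u‖)⁻¹ = t * ‖c‖ / ‖c * w + u‖ := by field_simp
  rw [h4, Real.log_mul (by positivity) hx.ne', Real.log_inv] at h3
  congr 1
  linarith

lemma integral_norm_sq (w : ℂ) (t : ℝ) :
    ∫ θ in (0 : ℝ)..2 * π, ‖circleMap w t θ‖ ^ 2 = 2 * π * (‖w‖ ^ 2 + t ^ 2) := by
  have h : ∀ θ : ℝ, ‖circleMap w t θ‖ ^ 2 =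
      (‖w‖ ^ 2 + t ^ 2) + (2 * t * w.re * cos θ + 2 * t * w.im * sin θ) := by
    intro θ
    have := sin_sq_add_cos_sq θ
    rw [Complex.sq_norm, Complex.sq_norm, Complex.normSq_apply, Complex.normSq_apply, circleMap]
    simp only [Complex.add_re, Complex.add_im, Complex.re_ofReal_mul, Complex.im_ofReal_mul,
      Complex.exp_ofReal_mul_I_re, Complex.exp_ofReal_mul_I_im]
    linear_combination t ^ 2 * this
  simp_rw [h]
  rw [intervalIntegral.integral_add (by simp) (Continuous.intervalIntegrable (by fun_prop) _ _),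
    intervalIntegral.integral_add (Continuous.intervalIntegrable (by fun_prop) _ _)
      (Continuous.intervalIntegrable (by fun_prop) _ _)]
  simp
  ring

variable {ι : Type*}

/-- The weight of a product of linear forms. -/
noncomputable def GG (s : Finset ι) (c u : ι → ℂ) (z : ℂ) : ℝ :=
  (∏ j ∈ s, ‖c j * z + u j‖ ^ 2) * gw z

lemma GG_nonneg (s : Finset ι) (c u : ι → ℂ) (z : ℂ) : 0 ≤ GG s c u z :=
  mul_nonneg (prod_nonneg fun _ _ => sq_nonneg _) (gw_pos z).le

@[fun_prop]
lemma GG_cont (s : Finset ι) (c u : ι → ℂ) : Continuous (GG s c u) := by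
  unfold GG
  fun_prop

lemma GG_eq (s : Finset ι) (c u : ι → ℂ) (z : ℂ) :
    GG s c u z = ‖(∏ j ∈ s, (C (c j) * X + C (u j))).eval z‖ ^ 2 * gw z := by
  simp [GG, eval_prod, prod_pow]

lemma GG_integrable (s : Finset ι) (c u : ι → ℂ) : Integrable (GG s c u) :=
  (poly_integrable _).congr (.of_forall fun z => (GG_eq s c u z).symm)

lemma GG_erase [DecidableEq ι] (s : Finset ι) (c u : ι → ℂ) {k : ι} (hk : k ∈ s) (z : ℂ) :
    GG s c u z = ‖c k * z + u k‖ ^ 2 * GG (s.erase k) c u z := by
  rw [GG, GG, ← mul_prod_erase s _ hk, mul_assoc]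

lemma GG_exp (s : Finset ι) (c u : ι → ℂ) (z : ℂ) (h : ∀ j ∈ s, c j * z + u j ≠ 0) :
    GG s c u z = rexp (2 * ∑ j ∈ s, log ‖c j * z + u j‖ - ‖z‖ ^ 2) / π := by
  rw [GG, gw, ← mul_div_assoc, sub_eq_add_neg, Real.exp_add, mul_sum, Real.exp_sum]
  congr 2
  refine prod_congr rfl fun j hj => ?_
  rw [two_mul, Real.exp_add, Real.exp_log (norm_pos_iff.2 (h j hj)), sq]

lemma gibbs (s : Finset ι) (c u : ι → ℂ) {t : ℝ} (ht0 : 0 < t) (w : ℂ) :
    2 * π * (GG s c u w * ∑ k ∈ s, log⁺ (t ^ 2 * ‖c k‖ ^ 2 / ‖c k * w + u k‖ ^ 2)) ≤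
      (∫ θ in (0 : ℝ)..2 * π, GG s c u (circleMap w t θ)) +
        2 * π * (t ^ 2 - 1) * GG s c u w := by
  classical
  by_cases h : ∀ j ∈ s, c j * w + u j ≠ 0
  swap
  · push Not at h
    obtain ⟨j, hj, h⟩ := h
    have : GG s c u w = 0 := by
      rw [GG, prod_eq_zero hj (by simp [h]), zero_mul]
    simp only [this, zero_mul, mul_zero, add_zero]
    exact intervalIntegral.integral_nonneg (by positivity) fun θ _ => GG_nonneg ..
  have hl : ∀ k, IntervalIntegrable (fun θ => log ‖c k * circleMap w t θ + u k‖) volume 0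
      (2 * π) := fun k =>
    MeromorphicOn.circleIntegrable_log_norm (f := fun z => c k * z + u k) fun _ _ => by fun_prop
  have hL : IntervalIntegrable (fun θ => ∑ k ∈ s, log ‖c k * circleMap w t θ + u k‖) volume 0
      (2 * π) := by
    have := IntervalIntegrable.sum s fun k _ => hl k
    rwa [sum_fn] at this
  have hN : IntervalIntegrable (fun θ => ‖circleMap w t θ‖ ^ 2) volume 0 (2 * π) :=
    Continuous.intervalIntegrable (by fun_prop) _ _
  set b := 2 * ∑ j ∈ s, log ‖c j * w + u j‖ - ‖w‖ ^ 2 with hb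
  have hae : (fun θ => GG s c u w * (2 * ∑ k ∈ s, log ‖c k * circleMap w t θ + u k‖ -
      ‖circleMap w t θ‖ ^ 2 + (1 - b))) ≤ᵐ[volume] fun θ => GG s c u (circleMap w t θ) := by
    have hc := ((s.image fun k => -u k / c k).countable_toSet.preimage_circleMap w
      ht0.ne').measure_zero volume
    filter_upwards [measure_eq_zero_iff_ae_notMem.mp hc] with θ hθ
    have hz : ∀ j ∈ s, c j * circleMap w t θ + u j ≠ 0 := by
      intro j hj e
      have hcj : c j ≠ 0 := fun e' => h j hj (by simpa [e'] using e)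
      refine hθ (mem_coe.2 (mem_image.2 ⟨j, hj, ?_⟩))
      field_simp
      linear_combination -e
    rw [GG_exp s c u w h, GG_exp s c u _ hz, ← hb, div_mul_eq_mul_div]
    gcongr
    set a := 2 * ∑ j ∈ s, log ‖c j * circleMap w t θ + u j‖ - ‖circleMap w t θ‖ ^ 2
    have := Real.add_one_le_exp (a - b)
    calc rexp b * (a + (1 - b)) = rexp b * (a - b + 1) := by ring
      _ ≤ rexp b * rexp (a - b) := by gcongr
      _ = rexp a := by rw [← Real.exp_add]; congr 1; ring
  have h1 := intervalIntegral.integral_mono_ae (by positivity : (0 : ℝ) ≤ 2 * π)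
    ((((hL.const_mul 2).sub hN).add (by simp)).const_mul _)
    (Continuous.intervalIntegrable (by fun_prop) _ _) hae
  rw [intervalIntegral.integral_const_mul,
    intervalIntegral.integral_add ((hL.const_mul 2).sub hN) (by simp),
    intervalIntegral.integral_sub (hL.const_mul 2) hN, intervalIntegral.integral_const_mul,
    intervalIntegral.integral_finsetSum fun k _ => hl k, integral_norm_sq,
    intervalIntegral.integral_const, smul_eq_mul] at h1
  have h2 := sum_congr rfl fun k hk => factor_le (c k) (u k) w ht0 (h k hk)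
  rw [← mul_sum, sum_add_distrib] at h2
  have h3 : ∑ k ∈ s, log⁺ (t ^ 2 * ‖c k‖ ^ 2 / ‖c k * w + u k‖ ^ 2) =
      2 * ∑ k ∈ s, log⁺ (t * ‖c k‖ / ‖c k * w + u k‖) := by
    rw [mul_sum]
    refine sum_congr rfl fun k _ => ?_
    rw [← mul_pow, ← div_pow, posLog_pow]
    norm_num
  rw [h3]
  rw [hb, ← h2] at h1
  nlinarith

lemma ind_integrable (s : Finset ι) (c u : ι → ℂ) (a b : ℂ) (r : ℝ) :
    Integrable fun z => if ‖a * z + b‖ < r then GG s c u z else 0 := by
  have hm : MeasurableSet {z : ℂ | ‖a * z + b‖ < r} :=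
    (isOpen_lt (by fun_prop) continuous_const).measurableSet
  refine ((GG_integrable s c u).indicator hm).congr (.of_forall fun z => ?_)
  simp only [Set.indicator_apply, Set.mem_ofPred_eq]

lemma mul_posLog_le {x a : ℝ} (hx : 0 ≤ x) (ha : 0 ≤ a) : x * log⁺ (a / x) ≤ a := by
  rcases hx.eq_or_lt with rfl | hx
  · simpa using ha
  rw [posLog_apply, mul_max_of_nonneg _ _ hx.le, mul_zero]
  refine max_le ha ?_
  rw [← le_div_iff₀' hx]
  exact Real.log_le_self (by positivity)

lemma log_integrable (s : Finset ι) (c u : ι → ℂ) {k : ι} (hk : k ∈ s) {a : ℝ} (ha : 0 ≤ a) :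
    Integrable fun z => GG s c u z * log⁺ (a / ‖c k * z + u k‖ ^ 2) := by
  classical
  refine ((GG_integrable (s.erase k) c u).const_mul a).mono' ?_ (.of_forall fun z => ?_)
  · refine ((GG_cont s c u).measurable.mul (continuous_posLog.measurable.comp ?_)).aestronglyMeasurable
    fun_prop
  · rw [Real.norm_of_nonneg (mul_nonneg (GG_nonneg ..) posLog_nonneg), GG_erase s c u hk,
      mul_right_comm]
    exact mul_le_mul_of_nonneg_right (mul_posLog_le (sq_nonneg _) ha) (GG_nonneg ..)

theorem count_le (s : Finset ι) (c u : ι → ℂ) {a : ℝ} (ha : 0 < a) :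
    ∑ k ∈ s, ∫ w, GG s c u w * log⁺ (a * ‖c k‖ ^ 2 / ‖c k * w + u k‖ ^ 2) ≤
      a * ∫ w, GG s c u w := by
  obtain ⟨t, ht0, rfl⟩ : ∃ t : ℝ, 0 < t ∧ t ^ 2 = a := ⟨√a, Real.sqrt_pos.2 ha, Real.sq_sqrt ha.le⟩
  have hG := GG_integrable s c u
  have e : ∀ (θ : ℝ) (w : ℂ), circleMap w t θ = w + t * Complex.exp (θ * Complex.I) :=
    fun _ _ => rfl
  have hp : Integrable (Function.uncurry fun (θ : ℝ) (w : ℂ) => GG s c u (circleMap w t θ))
      ((volume.restrict (Set.uIoc (0 : ℝ) (2 * π))).prod volume) := by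
    rw [integrable_prod_iff (Continuous.aestronglyMeasurable (by
      unfold circleMap
      fun_prop))]
    simp only [Function.uncurry_apply_pair, e]
    refine ⟨.of_forall fun θ => hG.comp_add_right _, ?_⟩
    simp only [integral_add_right_eq_self (μ := volume) (fun w => ‖GG s c u w‖)]
    exact integrableOn_const (by simp [Set.uIoc])
  have h1 := intervalIntegral_integral_swap hp
  simp only [e, integral_add_right_eq_self (μ := volume) (GG s c u),
    intervalIntegral.integral_const, smul_eq_mul] at h1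
  have hq : Integrable fun w => ∫ θ in (0 : ℝ)..2 * π, GG s c u (circleMap w t θ) := by
    have := hp.integral_prod_right
    simp only [intervalIntegral.integral_of_le (by positivity : (0 : ℝ) ≤ 2 * π)]
    simpa only [Function.uncurry_apply_pair,
      Set.uIoc_of_le (by positivity : (0 : ℝ) ≤ 2 * π)] using this
  have hi : ∀ k ∈ s, Integrable fun w =>
      GG s c u w * log⁺ (t ^ 2 * ‖c k‖ ^ 2 / ‖c k * w + u k‖ ^ 2) := fun k hk =>
    log_integrable s c u hk (by positivity)
  have h3 := integral_mono (μ := volume) ((integrable_finsetSum s hi).const_mul (2 * π))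
    (hq.add (hG.const_mul (2 * π * (t ^ 2 - 1)))) fun w => by
      have := gibbs s c u ht0 w
      rwa [mul_sum] at this
  simp only [Pi.add_apply] at h3
  rw [integral_const_mul, integral_finsetSum s hi, integral_add hq (hG.const_mul _),
    integral_const_mul] at h3
  simp only [e] at h3
  rw [← h1] at h3
  refine le_of_mul_le_mul_left (h3.trans (le_of_eq ?_)) two_pi_pos
  ring

end Pool.Agent.Lib.MP_395ab6_co
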