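import Pool.Agent.Lib.MP_395ab6_co.RankTwo

/-! Rank two Gram matrices whose vectors lie on rings of sizes `1, 2, 4, …`. -/

namespace Pool.Agent.Lib.MP_395ab6_co

open Finset Polynomial
open scoped ComplexOrder

/-- The Gram matrix of the vectors `(a i, b i)`. -/
def gram {ι : Type*} (a b : ι → ℂ) : Matrix ι ι ℂ :=
  Matrix.of fun i j => a i * star (a j) + b i * star (b j)

lemma gram_eq {ι : Type*} (a b : ι → ℂ) : gram a b =
    (Matrix.of fun (i : ι) (t : Fin 2) => if t = 0 then a i else b i) *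
      (Matrix.of fun (i : ι) (t : Fin 2) => if t = 0 then a i else b i).conjTranspose := by
  ext i j
  simp [gram, Matrix.mul_apply, Fin.sum_univ_two]

lemma gram_psd {ι : Type*} [Fintype ι] (a b : ι → ℂ) : (gram a b).PosSemidef := by
  rw [gram_eq]
  exact Matrix.posSemidef_self_mul_conjTranspose _

lemma gram_rank {ι : Type*} [Fintype ι] (a b : ι → ℂ) : (gram a b).rank ≤ 2 := by
  rw [gram_eq]
  exact (Matrix.rank_mul_le_left _ _).trans ((Matrix.rank_le_card_width _).trans (by simp))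

lemma EE_star {ι : Type*} [Fintype ι] [DecidableEq ι] (a b : ι → ℂ) (k : ℕ) :
    EE (fun i => star (a i)) (fun i => star (b i)) k = star (EE a b k) := by
  simp [EE, gg, star_sum, star_prod]

lemma gram_per {ι : Type*} [Fintype ι] [DecidableEq ι] (a b : ι → ℂ) :
    (gram a b).permanent.re = ∑ k ∈ range (Fintype.card ι + 1),
      ((k.factorial * (Fintype.card ι - k).factorial : ℕ) : ℝ) *
        ‖(∏ i, (C (a i) * X + C (b i))).coeff k‖ ^ 2 := by
  rw [gram, permanent_rank_two a b (fun i => star (a i)) (fun i => star (b i)), Complex.re_sum]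
  refine sum_congr rfl fun k _ => ?_
  rw [EE_star, EE_eq_coeff, Complex.star_def, Complex.mul_conj, Complex.normSq_eq_norm_sq]
  norm_cast

lemma gram_per_ge {ι : Type*} [Fintype ι] [DecidableEq ι] (a b : ι → ℂ) :
    ((Fintype.card ι).factorial : ℝ) * ∏ i, ‖b i‖ ^ 2 ≤ (gram a b).permanent.re := by
  rw [gram_per]
  refine le_trans (le_of_eq ?_) (single_le_sum (f := fun k =>
    ((k.factorial * (Fintype.card ι - k).factorial : ℕ) : ℝ) *
      ‖(∏ i, (C (a i) * X + C (b i))).coeff k‖ ^ 2) (fun k _ => by positivity)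
    (mem_range.2 (Nat.succ_pos _)))
  simp [coeff_zero_prod, prod_pow]

/-- The first vector is `(1, 0)`: the permanent. -/
lemma cons_per {n : ℕ} (a b : Fin n → ℂ) :
    (gram (Fin.cons 1 a : Fin (n + 1) → ℂ) (Fin.cons 0 b)).permanent.re =
      ∑ s ∈ range (n + 1), (((s + 1).factorial * (n - s).factorial : ℕ) : ℝ) *
        ‖(∏ i, (C (a i) * X + C (b i))).coeff s‖ ^ 2 := by
  rw [gram_per, Fintype.card_fin, sum_range_succ', Fin.prod_univ_succ]
  simp [coeff_X_mul]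

/-- The first vector is `(1, 0)`: the sum of the question. -/
lemma cons_sum {n : ℕ} (a b : Fin n → ℂ) (hb : ∀ i, b i ≠ 0) :
    ((n - 1).factorial : ℝ) * (∏ i, ‖b i‖ ^ 2) * ∑ k, ‖a k‖ ^ 2 / ‖b k‖ ^ 2 ≤
      ∑ k ∈ (univ : Finset (Fin (n + 1))).erase 0,
        ‖gram (Fin.cons 1 a : Fin (n + 1) → ℂ) (Fin.cons 0 b) 0 k‖ ^ 2 *
          ((gram (Fin.cons 1 a : Fin (n + 1) → ℂ) (Fin.cons 0 b)).submatrix
            (fun j : {j : Fin (n + 1) // j ≠ 0 ∧ j ≠ k} => j.1)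
            (fun j : {j : Fin (n + 1) // j ≠ 0 ∧ j ≠ k} => j.1)).permanent.re := by
  have he : (univ : Finset (Fin (n + 1))).erase 0 = univ.map ⟨Fin.succ, Fin.succ_injective _⟩ := by
    rw [Fin.univ_succ, erase_cons]
  rw [he, sum_map, mul_sum]
  refine sum_le_sum fun k _ => ?_
  simp only [Function.Embedding.coeFn_mk]
  have h0 : ‖gram (Fin.cons 1 a : Fin (n + 1) → ℂ) (Fin.cons 0 b) 0 k.succ‖ = ‖a k‖ := by
    simp [gram]
  have hf : (univ.filter fun j : Fin (n + 1) => j ≠ 0 ∧ j ≠ k.succ) =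
      (univ.erase k).map ⟨Fin.succ, Fin.succ_injective _⟩ := by
    ext j
    refine Fin.cases ?_ (fun j => ?_) j
    · simp [(Fin.succ_ne_zero _)]
    · simp
  have hc : Fintype.card {j : Fin (n + 1) // j ≠ 0 ∧ j ≠ k.succ} = n - 1 := by
    rw [Fintype.card_subtype, hf, card_map, card_erase_of_mem (mem_univ _), card_univ,
      Fintype.card_fin]
  have h1 := gram_per_ge (ι := {j : Fin (n + 1) // j ≠ 0 ∧ j ≠ k.succ})
    (fun j => (Fin.cons 1 a : Fin (n + 1) → ℂ) j.1) (fun j => (Fin.cons 0 b : Fin (n + 1) → ℂ) j.1)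
  rw [hc, ← prod_subtype (univ.filter fun j : Fin (n + 1) => j ≠ 0 ∧ j ≠ k.succ) (by simp)
    (fun j => ‖(Fin.cons 0 b : Fin (n + 1) → ℂ) j‖ ^ 2), hf, prod_map] at h1
  simp only [Function.Embedding.coeFn_mk, Fin.cons_succ] at h1
  have h2 : ‖b k‖ ≠ 0 := norm_ne_zero_iff.2 (hb k)
  rw [h0, ← mul_prod_erase univ (fun i => ‖b i‖ ^ 2) (mem_univ k)]
  refine le_trans (le_of_eq ?_) (mul_le_mul_of_nonneg_left h1 (sq_nonneg _))
  field_simp

/-- Coefficients of the product of the ring polynomials. -/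
lemma ring_coeff (τ : ℕ → ℂ) (u : ℝ) (hu : 0 ≤ u)
    (hτ : ∀ i, (2 * 2 ^ i : ℝ) ^ 2 ^ i ≤ ‖τ i‖ ^ 2 * u ^ 2 ^ i) (N : ℕ) : ∀ s : ℕ,
    (2 ^ N ≤ s → (∏ i ∈ range N, (X ^ 2 ^ i - C (τ i))).coeff s = 0) ∧
      (s.factorial : ℝ) * ‖(∏ i ∈ range N, (X ^ 2 ^ i - C (τ i))).coeff s‖ ^ 2 ≤
        (∏ i ∈ range N, ‖τ i‖ ^ 2) * u ^ s := by
  induction N with
  | zero =>
    intro s
    cases s with
    | zero => simp
    | succ s => simp [coeff_one]; positivity
  | succ N ih =>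
    intro s
    rw [prod_range_succ, prod_range_succ, mul_sub, coeff_sub, coeff_mul_C, coeff_mul_X_pow']
    have hP : 0 ≤ ∏ i ∈ range N, ‖τ i‖ ^ 2 := prod_nonneg fun _ _ => sq_nonneg _
    by_cases h : 2 ^ N ≤ s
    · rw [if_pos h, (ih s).1 h, zero_mul, sub_zero]
      obtain ⟨t, rfl⟩ := Nat.exists_eq_add_of_le h
      rw [Nat.add_sub_cancel_left]
      refine ⟨fun h2 => (ih t).1 (by omega), ?_⟩
      by_cases ht : 2 ^ N ≤ t
      · rw [(ih t).1 ht]
        simp only [norm_zero, ne_eq, OfNat.ofNat_ne_zero, not_false_eq_true, zero_pow, mul_zero]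
        positivity
      · have h3 : (2 ^ N + t).factorial ≤ (2 * 2 ^ N) ^ 2 ^ N * t.factorial := by
          have h4 := Nat.factorial_mul_descFactorial (n := 2 ^ N + t) (k := 2 ^ N) (by omega)
          rw [Nat.add_sub_cancel_left] at h4
          rw [← h4, mul_comm]
          refine Nat.mul_le_mul_right _ ((Nat.descFactorial_le_pow _ _).trans ?_)
          exact Nat.pow_le_pow_left (by omega) _
        have h5 : ((2 ^ N + t).factorial : ℝ) ≤ (2 * 2 ^ N) ^ 2 ^ N * t.factorial := by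
          exact_mod_cast h3
        calc _ ≤ (2 * 2 ^ N : ℝ) ^ 2 ^ N * t.factorial *
              ‖(∏ i ∈ range N, (X ^ 2 ^ i - C (τ i))).coeff t‖ ^ 2 :=
              mul_le_mul_of_nonneg_right h5 (sq_nonneg _)
          _ ≤ (‖τ N‖ ^ 2 * u ^ 2 ^ N) * ((∏ i ∈ range N, ‖τ i‖ ^ 2) * u ^ t) := by
              rw [mul_assoc]
              exact mul_le_mul (hτ N) (ih t).2 (by positivity) (by positivity)
          _ = _ := by rw [pow_add]; ring
    · rw [if_neg h, zero_sub]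
      refine ⟨fun h2 => by omega, ?_⟩
      rw [norm_neg, norm_mul, mul_pow, ← mul_assoc, mul_right_comm _ _ (u ^ s)]
      exact mul_le_mul_of_nonneg_right (ih s).2 (sq_nonneg _)

lemma sum_half (n : ℕ) : ∑ s ∈ range n, ((s : ℝ) + 1) * (1 / 2) ^ s = 4 - (2 * n + 4) * (1 / 2) ^ n := by
  induction n with
  | zero => norm_num
  | succ n ih =>
    rw [sum_range_succ, ih]
    push_cast
    ring

/-- The vectors: `2 ^ i` points on the ring number `i`, and the vector `(0, 1)` repeated. -/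
lemma exists_vectors (n N : ℕ) (hN : 2 ^ N ≤ n + 1) (ρ : ℕ → ℝ) (hρ : ∀ i, 0 < ρ i) :
    ∃ a b : Fin n → ℂ, (∀ i, b i ≠ 0) ∧
      ∏ i, (C (a i) * X + C (b i)) = ∏ i ∈ range N, (X ^ 2 ^ i - C ((ρ i : ℂ) ^ 2 ^ i)) ∧
      ∑ k, ‖a k‖ ^ 2 / ‖b k‖ ^ 2 = ∑ i ∈ range N, 2 ^ i / ρ i ^ 2 := by
  have hc : Fintype.card ((Σ i : Fin N, Fin (2 ^ (i : ℕ))) ⊕ Fin (n + 1 - 2 ^ N)) = n := by
    rw [Fintype.card_sum, Fintype.card_sigma, Fintype.card_fin]
    simp only [Fintype.card_fin]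
    rw [Fin.sum_univ_eq_sum_range (fun i => 2 ^ i) N, Nat.geomSum_eq le_rfl]
    have : 0 < 2 ^ N := by positivity
    omega
  let e := (Fintype.equivFinOfCardEq hc).symm
  let ζ : ℕ → ℂ := fun i => Complex.exp (2 * Real.pi * Complex.I / ((2 ^ i : ℕ) : ℂ))
  have hζ : ∀ i, IsPrimitiveRoot (ζ i) (2 ^ i) := fun i =>
    Complex.isPrimitiveRoot_exp _ (by positivity)
  have hn : ∀ i, ‖ζ i‖ = 1 := fun i => (hζ i).norm'_eq_one (by positivity)
  let a' : (Σ i : Fin N, Fin (2 ^ (i : ℕ))) ⊕ Fin (n + 1 - 2 ^ N) → ℂ :=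
    Sum.elim (fun _ => 1) (fun _ => 0)
  let b' : (Σ i : Fin N, Fin (2 ^ (i : ℕ))) ⊕ Fin (n + 1 - 2 ^ N) → ℂ :=
    Sum.elim (fun x => -(ζ x.1 ^ (x.2 : ℕ) * ρ x.1)) (fun _ => 1)
  refine ⟨fun i => a' (e i), fun i => b' (e i), fun i => ?_, ?_, ?_⟩
  · show b' (e i) ≠ 0
    rcases e i with x | x
    · have h1 : ζ x.1 ≠ 0 := (hζ _).ne_zero (by positivity)
      have h2 : (ρ x.1 : ℂ) ≠ 0 := by exact_mod_cast (hρ _).ne'
      simp [b', h1, h2]
    · simp [b']
  · rw [e.prod_comp (fun x => C (a' x) * X + C (b' x)), Fintype.prod_sum_type, Fintype.prod_sigma,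
      ← Fin.prod_univ_eq_prod_range (fun i => X ^ 2 ^ i - C ((ρ i : ℂ) ^ 2 ^ i)) N]
    simp only [a', b', Sum.elim_inl, Sum.elim_inr, map_zero, zero_mul, zero_add, map_one,
      prod_const_one, mul_one, one_mul]
    refine prod_congr rfl fun i _ => ?_
    rw [X_pow_sub_C_eq_prod (hζ i) (by positivity) rfl,
      ← Fin.prod_univ_eq_prod_range (fun j => X - C (ζ i ^ j * ρ i))]
    simp [sub_eq_add_neg]
  · rw [e.sum_comp (fun x => ‖a' x‖ ^ 2 / ‖b' x‖ ^ 2), Fintype.sum_sum_type, Fintype.sum_sigma,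
      ← Fin.sum_univ_eq_sum_range (fun i => 2 ^ i / ρ i ^ 2) N]
    simp [a', b', hn, div_eq_mul_inv]

/-- The estimate with `N` rings. -/
theorem rings (n N : ℕ) (hn : 1 ≤ n) (h1 : 1 ≤ N) (hN : 2 ^ N ≤ n + 1) (hN2 : 2 * 2 ^ N ≤ n + 4) :
    ∃ a b : Fin (n + 1) → ℂ, 0 < (gram a b).permanent.re ∧ (N : ℝ) / 32 * (gram a b).permanent.re <
      ∑ k ∈ (univ : Finset (Fin (n + 1))).erase 0, ‖gram a b 0 k‖ ^ 2 *
          ((gram a b).submatrix (fun j : {j : Fin (n + 1) // j ≠ 0 ∧ j ≠ k} => j.1)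
            (fun j : {j : Fin (n + 1) // j ≠ 0 ∧ j ≠ k} => j.1)).permanent.re := by
  have hn0 : (0 : ℝ) < n := by exact_mod_cast hn
  let ρ : ℕ → ℝ := fun i => √(8 * 2 ^ i / n)
  have hρ : ∀ i, 0 < ρ i := fun i => Real.sqrt_pos.2 (by positivity)
  have hρ2 : ∀ i, ρ i ^ 2 = 8 * 2 ^ i / n := fun i => Real.sq_sqrt (by positivity)
  obtain ⟨a, b, hb, hq, hs⟩ := exists_vectors n N hN ρ hρ
  have hτ : ∀ i, (2 * 2 ^ i : ℝ) ^ 2 ^ i ≤ ‖(ρ i : ℂ) ^ 2 ^ i‖ ^ 2 * ((n : ℝ) / 4) ^ 2 ^ i := by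
    intro i
    rw [norm_pow, Complex.norm_real, Real.norm_eq_abs, abs_of_pos (hρ i), ← pow_mul, mul_comm _ 2,
      pow_mul, hρ2, ← mul_pow]
    refine le_of_eq ?_
    congr 1
    field_simp
    norm_num
  have hc := ring_coeff (fun i => (ρ i : ℂ) ^ 2 ^ i) (n / 4) (by positivity) hτ N
  have hP : ∏ i, ‖b i‖ ^ 2 = ∏ i ∈ range N, ‖(ρ i : ℂ) ^ 2 ^ i‖ ^ 2 := by
    have := congrArg (fun p : ℂ[X] => ‖p.coeff 0‖ ^ 2) hq
    simp only [coeff_zero_prod, norm_prod, ← prod_pow, coeff_sub, coeff_C_zero, coeff_X_pow,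
      if_neg (ne_of_lt (Nat.two_pow_pos _)), zero_sub, norm_neg] at this
    simpa using this
  set P := ∏ i ∈ range N, ‖(ρ i : ℂ) ^ 2 ^ i‖ ^ 2 with hPd
  have hP0 : 0 < P := by
    rw [← hP]
    exact prod_pos fun i _ => pow_pos (norm_pos_iff.2 (hb i)) _
  refine ⟨Fin.cons 1 a, Fin.cons 0 b, ?_, lt_of_lt_of_le ?_ (cons_sum a b hb)⟩
  · rw [cons_per]
    refine sum_pos' (fun _ _ => by positivity) ⟨0, mem_range.2 n.succ_pos, ?_⟩
    have : (∏ i, (C (a i) * X + C (b i))).coeff 0 ≠ 0 := by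
      simpa [coeff_zero_prod, prod_ne_zero_iff] using hb
    positivity
  rw [cons_per, hq, hP, hs]
  have hsum : ∑ i ∈ range N, (2 : ℝ) ^ i / ρ i ^ 2 = N * (n / 8) := by
    rw [sum_congr rfl (g := fun _ => (n : ℝ) / 8)]
    · simp
    · intro i _
      rw [hρ2]
      field_simp
  have hfac : (n : ℝ) * (n - 1).factorial = n.factorial := by
    exact_mod_cast Nat.mul_factorial_pred (by omega)
  have hterm : ∀ s ∈ range (n + 1), (((s + 1).factorial * (n - s).factorial : ℕ) : ℝ) *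
      ‖(∏ i ∈ range N, (X ^ 2 ^ i - C ((ρ i : ℂ) ^ 2 ^ i))).coeff s‖ ^ 2 ≤
        (n.factorial * P) * (((s : ℝ) + 1) * (1 / 2) ^ s) := by
    intro s hs
    by_cases h : 2 ^ N ≤ s
    · rw [(hc s).1 h]
      simp only [norm_zero, ne_eq, OfNat.ofNat_ne_zero, not_false_eq_true, zero_pow, mul_zero]
      positivity
    · have hsn : s ≤ n := by omega
      have h2 : ((n : ℝ) / 2) ^ s * (n - s).factorial ≤ n.factorial := by
        have h3 : (n + 1 - s) ^ s * (n - s).factorial ≤ n.factorial := by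
          rw [← Nat.factorial_mul_descFactorial hsn, mul_comm]
          exact Nat.mul_le_mul_left _ (Nat.pow_sub_le_descFactorial n s)
        have h4 : (n : ℝ) / 2 ≤ ((n + 1 - s : ℕ) : ℝ) := by
          have : n ≤ 2 * (n + 1 - s) := by omega
          have : (n : ℝ) ≤ 2 * ((n + 1 - s : ℕ) : ℝ) := by exact_mod_cast this
          linarith
        calc _ ≤ ((n + 1 - s : ℕ) : ℝ) ^ s * (n - s).factorial := by gcongr
          _ ≤ _ := by exact_mod_cast h3
      have h5 : ((n : ℝ) / 4) ^ s = ((n : ℝ) / 2) ^ s * (1 / 2) ^ s := by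
        rw [← mul_pow]
        congr 1
        ring
      calc _ = ((s : ℝ) + 1) * (n - s).factorial * ((s.factorial : ℝ) *
            ‖(∏ i ∈ range N, (X ^ 2 ^ i - C ((ρ i : ℂ) ^ 2 ^ i))).coeff s‖ ^ 2) := by
            rw [Nat.factorial_succ]
            push_cast
            ring
        _ ≤ ((s : ℝ) + 1) * (n - s).factorial * (P * ((n : ℝ) / 4) ^ s) :=
            mul_le_mul_of_nonneg_left (hc s).2 (by positivity)
        _ = (((n : ℝ) / 2) ^ s * (n - s).factorial) * P * (((s : ℝ) + 1) * (1 / 2) ^ s) := by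
            rw [h5]
            ring
        _ ≤ _ := by gcongr
  have hle := sum_le_sum hterm
  rw [← mul_sum, sum_half] at hle
  have hN0 : (0 : ℝ) < N := by exact_mod_cast h1
  have hf0 : (0 : ℝ) < n.factorial := by exact_mod_cast n.factorial_pos
  have hpos : (0 : ℝ) < (2 * ((n + 1 : ℕ) : ℝ) + 4) * (1 / 2) ^ (n + 1) := by positivity
  have hlt : (n.factorial * P) * (4 - (2 * ((n + 1 : ℕ) : ℝ) + 4) * (1 / 2) ^ (n + 1)) <
      (n.factorial * P) * 4 := mul_lt_mul_of_pos_left (by linarith) (by positivity)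
  calc _ < (N : ℝ) / 32 * ((n.factorial * P) * 4) :=
        mul_lt_mul_of_pos_left (hle.trans_lt hlt) (by positivity)
    _ = _ := by
        rw [hsum, ← hfac]
        ring

end Pool.Agent.Lib.MP_395ab6_co
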