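import Pool.Agent.Lib.MP_395ab6_co.Jensen

/-! The logarithmic upper bound. -/

namespace Pool.Agent.Lib.MP_395ab6_co

open Finset MeasureTheory Real Polynomial
open scoped ComplexConjugate ComplexOrder MatrixOrder

lemma scales {q d y : ℝ} (hq : 1 < q) (hd : 0 < d) (hy : d ≤ y) (J : ℕ) :
    1 / y ≤ ∑ j ∈ range J, q * (q - 1) / (d * q ^ (j + 1)) * log⁺ (d * q ^ (j + 1) / y) +
      (q ^ 2 / (d * q ^ (J + 1)) * log⁺ (d * q ^ (J + 1) / y) + 1 / (d * q ^ J)) := by
  have hq0 : 0 < q := by linarith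
  have hq1 : 0 < q - 1 := by linarith
  have hy0 : 0 < y := by linarith
  have hp : ∀ x : ℝ, 0 ≤ log⁺ x := fun _ => posLog_nonneg
  induction J with
  | zero =>
    have := one_div_le_one_div_of_le hd hy
    have h1 : 0 ≤ q ^ 2 / (d * q ^ (0 + 1)) * log⁺ (d * q ^ (0 + 1) / y) :=
      mul_nonneg (by positivity) (hp _)
    simp only [range_zero, sum_empty, pow_zero, mul_one]
    linarith
  | succ J ih =>
    rw [sum_range_succ]
    set a := d * q ^ (J + 1) with ha
    have ha0 : 0 < a := by positivity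
    have e1 : d * q ^ (J + 1 + 1) = a * q := by rw [ha]; ring
    have e2 : 1 / (d * q ^ J) = q / a := by rw [ha]; field_simp; ring
    rw [e1]
    by_cases h : y ≤ a
    · have h1 : 1 ≤ a / y := (one_le_div hy0).2 h
      have h2 : log⁺ (a / y) = log (a / y) := posLog_eq_log (by rwa [abs_of_pos (by positivity)])
      have h3 : log (a / y) + log q ≤ log⁺ (a * q / y) := by
        rw [← Real.log_mul (by positivity) hq0.ne', mul_div_right_comm a q y, posLog_apply]
        exact le_max_right _ _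
      have h4 := Real.one_sub_inv_le_log_of_pos hq0
      have h5 : q ^ 2 / a * log⁺ (a / y) + q / a ≤ q * (q - 1) / a * log⁺ (a / y) +
          (q ^ 2 / (a * q) * log⁺ (a * q / y) + 1 / a) := by
        have h6 : q ^ 2 / (a * q) * (log⁺ (a / y) + (1 - q⁻¹)) ≤
            q ^ 2 / (a * q) * log⁺ (a * q / y) :=
          mul_le_mul_of_nonneg_left (by linarith) (by positivity)
        refine le_trans (le_of_eq ?_) (add_le_add_right (add_le_add_left h6 _) _)
        field_simp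
        ring
      rw [e2] at ih
      linarith
    · have h1 := one_div_le_one_div_of_le ha0 (not_le.1 h).le
      have h2 : 0 ≤ ∑ j ∈ range J, q * (q - 1) / (d * q ^ (j + 1)) * log⁺ (d * q ^ (j + 1) / y) :=
        sum_nonneg fun j _ => mul_nonneg (by positivity) (hp _)
      have h3 : 0 ≤ q * (q - 1) / a * log⁺ (a / y) := mul_nonneg (by positivity) (hp _)
      have h4 : 0 ≤ q ^ 2 / (a * q) * log⁺ (a * q / y) := mul_nonneg (by positivity) (hp _)
      linarith

lemma point_split {q δ x a g : ℝ} (hq : 1 < q) (hδ : 0 < δ) (ha : 0 ≤ a) (hg : 0 ≤ g) (J : ℕ) :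
    a ^ 2 * g ≤ ∑ j ∈ range J, q * (q - 1) / (δ ^ 2 * q ^ (j + 1)) *
        (x ^ 2 * g * log⁺ (δ ^ 2 * q ^ (j + 1) * a ^ 2 / x ^ 2)) +
      q ^ 2 / (δ ^ 2 * q ^ (J + 1)) * (x ^ 2 * g * log⁺ (δ ^ 2 * q ^ (J + 1) * a ^ 2 / x ^ 2)) +
      1 / (δ ^ 2 * q ^ J) * (x ^ 2 * g) + a ^ 2 * (if x < δ * a then g else 0) := by
  have hq0 : 0 < q := by linarith
  have hq1 : 0 < q - 1 := by linarith
  have hp : ∀ y : ℝ, 0 ≤ x ^ 2 * g * log⁺ y := fun _ => mul_nonneg (by positivity) posLog_nonneg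
  have h0 : 0 ≤ ∑ j ∈ range J, q * (q - 1) / (δ ^ 2 * q ^ (j + 1)) *
        (x ^ 2 * g * log⁺ (δ ^ 2 * q ^ (j + 1) * a ^ 2 / x ^ 2)) +
      q ^ 2 / (δ ^ 2 * q ^ (J + 1)) * (x ^ 2 * g * log⁺ (δ ^ 2 * q ^ (J + 1) * a ^ 2 / x ^ 2)) +
      1 / (δ ^ 2 * q ^ J) * (x ^ 2 * g) :=
    add_nonneg (add_nonneg (sum_nonneg fun j _ => mul_nonneg (by positivity) (hp _))
      (mul_nonneg (by positivity) (hp _))) (by positivity)
  by_cases h : x < δ * a
  · rw [if_pos h]
    linarith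
  rw [if_neg h, mul_zero, add_zero]
  rcases ha.eq_or_lt with rfl | ha
  · simpa using h0
  have hx : 0 < x := lt_of_lt_of_le (by positivity) (not_lt.1 h)
  have h1 : δ ^ 2 ≤ x ^ 2 / a ^ 2 := by
    rw [le_div_iff₀ (by positivity), ← mul_pow]
    exact pow_le_pow_left₀ (by positivity) (not_lt.1 h) 2
  have h2 := mul_le_mul_of_nonneg_right (scales hq (by positivity) h1 J)
    (by positivity : 0 ≤ x ^ 2 * g)
  simp only [div_div_eq_mul_div] at h2
  refine le_trans (le_of_eq (by field_simp)) (h2.trans (le_of_eq ?_))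
  rw [add_mul, sum_mul, add_assoc]
  congr 1
  · exact sum_congr rfl fun j _ => by ring
  · ring

variable {ι : Type*} [DecidableEq ι]

theorem one_dim (s : Finset ι) (c u : ι → ℂ) {q δ : ℝ} (hq : 1 < q) (hδ : 0 < δ) (hδ1 : δ < 1)
    (J : ℕ) (hJ : (s.card : ℝ) ≤ q ^ J) :
    ∑ k ∈ s, ‖c k‖ ^ 2 * ∫ z, GG (s.erase k) c u z ≤
      (J * (q * (q - 1)) + q ^ 2 + 1 / δ ^ 2) / (1 - δ ^ 2) * ∫ z, ‖z‖ ^ 2 * GG s c u z := by
  have hq0 : 0 < q := by linarith
  have hq1 : 0 < q - 1 := by linarith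
  have hI : 0 ≤ ∫ z, GG s c u z := integral_nonneg fun z => GG_nonneg ..
  have h1 : ∀ k ∈ s, (1 - δ ^ 2) * (‖c k‖ ^ 2 * ∫ z, GG (s.erase k) c u z) ≤
      ∑ j ∈ range J, q * (q - 1) / (δ ^ 2 * q ^ (j + 1)) *
        (∫ z, GG s c u z * log⁺ (δ ^ 2 * q ^ (j + 1) * ‖c k‖ ^ 2 / ‖c k * z + u k‖ ^ 2)) +
      q ^ 2 / (δ ^ 2 * q ^ (J + 1)) *
        (∫ z, GG s c u z * log⁺ (δ ^ 2 * q ^ (J + 1) * ‖c k‖ ^ 2 / ‖c k * z + u k‖ ^ 2)) +
      1 / (δ ^ 2 * q ^ J) * ∫ z, GG s c u z := by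
    intro k hk
    have i0 : ∀ j : ℕ, Integrable fun z =>
        GG s c u z * log⁺ (δ ^ 2 * q ^ (j + 1) * ‖c k‖ ^ 2 / ‖c k * z + u k‖ ^ 2) := fun j =>
      log_integrable s c u hk (by positivity)
    have i1 : ∀ j ∈ range J, Integrable fun z => q * (q - 1) / (δ ^ 2 * q ^ (j + 1)) *
        (GG s c u z * log⁺ (δ ^ 2 * q ^ (j + 1) * ‖c k‖ ^ 2 / ‖c k * z + u k‖ ^ 2)) := fun j _ =>
      (i0 j).const_mul _
    have i2 := integrable_finsetSum _ i1
    have i5 := (i0 J).const_mul (q ^ 2 / (δ ^ 2 * q ^ (J + 1)))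
    have i3 := (GG_integrable s c u).const_mul (1 / (δ ^ 2 * q ^ J))
    have i4 := (ind_integrable (s.erase k) c u (c k) (u k) (δ * ‖c k‖)).const_mul (‖c k‖ ^ 2)
    have h2 := integral_mono (μ := volume) ((GG_integrable (s.erase k) c u).const_mul (‖c k‖ ^ 2))
      (((i2.add i5).add i3).add i4) fun z => by
        have := point_split (x := ‖c k * z + u k‖) hq hδ (norm_nonneg (c k))
          (GG_nonneg (s.erase k) c u z) J
        rwa [← GG_erase s c u hk] at this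
    simp only [Pi.add_apply] at h2
    rw [integral_add ((i2.fun_add i5).fun_add i3) i4, integral_add (i2.fun_add i5) i3,
      integral_add i2 i5, integral_finsetSum _ i1] at h2
    simp only [integral_const_mul] at h2
    have h3 := near_le (∏ j ∈ s.erase k, (C (c j) * X + C (u j))) (c k) (u k) hδ
    simp only [← GG_eq] at h3
    have h4 := mul_le_mul_of_nonneg_left h3 (sq_nonneg ‖c k‖)
    linarith
  have h2 := sum_le_sum h1
  rw [← mul_sum, sum_add_distrib, sum_add_distrib, sum_comm, sum_const, nsmul_eq_mul] at h2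
  have h3 : ∀ (b : ℝ) (j : ℕ), 0 ≤ b → ∑ k ∈ s, b / (δ ^ 2 * q ^ (j + 1)) *
      (∫ z, GG s c u z * log⁺ (δ ^ 2 * q ^ (j + 1) * ‖c k‖ ^ 2 / ‖c k * z + u k‖ ^ 2)) ≤
        b * ∫ z, GG s c u z := by
    intro b j hb
    rw [← mul_sum]
    refine (mul_le_mul_of_nonneg_left (count_le s c u (by positivity)) (by positivity)).trans
      (le_of_eq ?_)
    field_simp
  have h4 := sum_le_sum fun j (_ : j ∈ range J) => h3 (q * (q - 1)) j (by positivity)
  rw [sum_const, card_range, nsmul_eq_mul] at h4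
  have h5 : (s.card : ℝ) * (1 / (δ ^ 2 * q ^ J) * ∫ z, GG s c u z) ≤
      1 / δ ^ 2 * ∫ z, GG s c u z := by
    refine (mul_le_mul_of_nonneg_right hJ (by positivity)).trans (le_of_eq ?_)
    field_simp
  have h8 := h3 (q ^ 2) J (by positivity)
  have h6 := le_X_mul (∏ j ∈ s, (C (c j) * X + C (u j)))
  simp only [eval_mul, eval_X, norm_mul, mul_pow, mul_assoc, ← GG_eq] at h6
  have h9 : 0 < 1 - δ ^ 2 := by nlinarith
  refine le_trans ?_ (mul_le_mul_of_nonneg_left h6 (by positivity))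
  rw [div_mul_eq_mul_div, le_div_iff₀' h9]
  linarith

/-- The Gaussian integral with the first coordinate split off. -/
lemma wick_split {κ : Type*} [Fintype κ] [DecidableEq κ] {r : ℕ} (c : κ → ℂ) (u : κ → Fin r → ℂ) :
    Integrable (fun y : Fin r → ℂ =>
      (∫ z, GG univ c (fun j => ∑ t, u j t * y t) z) * ∏ t, gw (y t)) ∧
    ∫ y : Fin r → ℂ, (∫ z, GG univ c (fun j => ∑ t, u j t * y t) z) * ∏ t, gw (y t) =
      (Matrix.of fun i j => c i * conj (c j) + ∑ t, u i t * conj (u j t)).permanent.re := by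
  obtain ⟨h1, h2⟩ := wick (T := Fin (r + 1)) fun j => Fin.cons (c j) (u j)
  have hm := (volume_preserving_piFinSuccAbove (fun _ : Fin (r + 1) => ℂ) 0).symm
  rw [← hm.integrable_comp_emb (MeasurableEquiv.measurableEmbedding _)] at h1
  rw [← hm.integral_comp'] at h2
  have e : ∀ x : ℂ × (Fin r → ℂ),
      (∏ j, ‖∑ t, (Fin.cons (c j) (u j) : Fin (r + 1) → ℂ) t *
        (MeasurableEquiv.piFinSuccAbove (fun _ : Fin (r + 1) => ℂ) 0).symm x t‖ ^ 2) *
        ∏ t, gw ((MeasurableEquiv.piFinSuccAbove (fun _ : Fin (r + 1) => ℂ) 0).symm x t) =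
      GG univ c (fun j => ∑ t, u j t * x.2 t) x.1 * ∏ t, gw (x.2 t) := by
    intro x
    simp [GG, Fin.sum_univ_succ, Fin.prod_univ_succ, MeasurableEquiv.piFinSuccAbove,
      Fin.insertNthEquiv, mul_assoc]
  have h3 : Integrable (fun x : ℂ × (Fin r → ℂ) =>
      GG univ c (fun j => ∑ t, u j t * x.2 t) x.1 * ∏ t, gw (x.2 t)) (volume.prod volume) :=
    h1.congr (.of_forall e)
  simp only [e] at h2
  simp only [Fin.sum_univ_succ, Fin.cons_zero, Fin.cons_succ] at h2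
  refine ⟨by simpa only [integral_mul_const] using h3.integral_prod_right, ?_⟩
  rw [← h2, Measure.volume_eq_prod, integral_prod_symm _ h3]
  simp only [integral_mul_const]

lemma exists_split {n : ℕ} (A : Matrix (Fin (n + 1)) (Fin (n + 1)) ℂ) (hA : A.PosSemidef) :
    ∃ (c : Fin (n + 1) → ℂ) (u : Fin (n + 1) → Fin (n + 1) → ℂ), u 0 = 0 ∧
      A = Matrix.of fun i j => c i * conj (c j) + ∑ t, u i t * conj (u j t) := by
  obtain ⟨B, hB⟩ := CStarAlgebra.nonneg_iff_eq_mul_star_self.mp hA.nonneg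
  have h1 : ∀ i j, A i j = ∑ t, B i t * conj (B j t) := by
    intro i j
    rw [hB, Matrix.mul_apply]
    rfl
  by_cases h0 : A 0 0 = 0
  · refine ⟨0, B, ?_, ?_⟩
    · rw [h1] at h0
      simp only [Complex.mul_conj] at h0
      have h2 : ∑ t, Complex.normSq (B 0 t) = 0 := by exact_mod_cast h0
      rw [sum_eq_zero_iff_of_nonneg fun t _ => Complex.normSq_nonneg _] at h2
      exact funext fun t => Complex.normSq_eq_zero.1 (h2 t (mem_univ t))
    · ext i j
      simp [h1]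
  · have hc : ∀ i j, conj (A i j) = A j i := fun i j => hA.1.apply j i
    obtain ⟨a, ha⟩ : ∃ a : ℝ, (a : ℂ) ^ 2 = A 0 0 := by
      refine ⟨√(∑ t, Complex.normSq (B 0 t)), ?_⟩
      rw [← Complex.ofReal_pow, Real.sq_sqrt (sum_nonneg fun t _ => Complex.normSq_nonneg _), h1]
      simp [Complex.mul_conj]
    have ha0 : (a : ℂ) ≠ 0 := fun e => h0 (by rw [← ha, e]; simp)
    refine ⟨fun i => A i 0 / a, fun i t => B i t - A i 0 / A 0 0 * B 0 t, ?_, ?_⟩
    · ext t
      simp [div_self h0]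
    · ext i j
      have h2 : ∑ t, (B i t - A i 0 / A 0 0 * B 0 t) * conj (B j t - A j 0 / A 0 0 * B 0 t) =
          A i j - A 0 j / A 0 0 * A i 0 - A i 0 / A 0 0 * A 0 j +
            A i 0 / A 0 0 * (A 0 j / A 0 0) * A 0 0 := by
        simp only [map_sub, map_mul, map_div₀, hc]
        generalize A i 0 / A 0 0 = p
        generalize A 0 j / A 0 0 = q
        rw [h1 i j, h1 i 0, h1 0 j, h1 0 0, mul_sum, mul_sum, mul_sum, ← sum_sub_distrib,
          ← sum_sub_distrib, ← sum_add_distrib]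
        exact sum_congr rfl fun t _ => by ring
      rw [Matrix.of_apply, h2, map_div₀, hc, Complex.conj_ofReal, ← ha]
      field_simp
      ring

theorem upper {n : ℕ} (A : Matrix (Fin (n + 1)) (Fin (n + 1)) ℂ) (hA : A.PosSemidef)
    {q δ : ℝ} (hq : 1 < q) (hδ : 0 < δ) (hδ1 : δ < 1) (J : ℕ) (hJ : (n : ℝ) ≤ q ^ J) :
    0 ≤ A.permanent.re ∧
    ∑ k ∈ (univ : Finset (Fin (n + 1))).erase 0,
        ‖A 0 k‖ ^ 2 * (A.submatrix (fun j : {j : Fin (n + 1) // j ≠ 0 ∧ j ≠ k} => j.1)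
          (fun j : {j : Fin (n + 1) // j ≠ 0 ∧ j ≠ k} => j.1)).permanent.re ≤
      (J * (q * (q - 1)) + q ^ 2 + 1 / δ ^ 2) / (1 - δ ^ 2) * A.permanent.re := by
  obtain ⟨c, u, hu, rfl⟩ := exists_split A hA
  obtain ⟨i1, e1⟩ := wick_split c u
  have hW : ∀ y : Fin (n + 1) → ℂ, 0 ≤ ∏ t, gw (y t) := fun y =>
    prod_nonneg fun t _ => (gw_pos _).le
  have hk : ∀ k : Fin (n + 1), Integrable (fun y : Fin (n + 1) → ℂ =>
      (∫ z, GG ((univ.erase 0).erase k) c (fun j => ∑ t, u j t * y t) z) * ∏ t, gw (y t)) ∧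
      ∫ y : Fin (n + 1) → ℂ, (∫ z, GG ((univ.erase 0).erase k) c
        (fun j => ∑ t, u j t * y t) z) * ∏ t, gw (y t) =
      ((Matrix.of fun i j => c i * conj (c j) + ∑ t, u i t * conj (u j t)).submatrix
        (fun j : {j : Fin (n + 1) // j ≠ 0 ∧ j ≠ k} => j.1)
        (fun j : {j : Fin (n + 1) // j ≠ 0 ∧ j ≠ k} => j.1)).permanent.re := by
    intro k
    have h := wick_split (κ := {j : Fin (n + 1) // j ≠ 0 ∧ j ≠ k}) (fun j => c j.1) fun j => u j.1
    have e : ∀ (y : Fin (n + 1) → ℂ) (z : ℂ),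
        GG (univ : Finset {j : Fin (n + 1) // j ≠ 0 ∧ j ≠ k}) (fun j => c j.1)
          (fun j => ∑ t, u j.1 t * y t) z =
        GG ((univ.erase 0).erase k) c (fun j => ∑ t, u j t * y t) z := by
      intro y z
      rw [GG, GG, prod_subtype ((univ.erase 0).erase k) (p := fun j => j ≠ 0 ∧ j ≠ k)
        (by simp [and_comm])]
    simp only [e] at h
    exact h
  refine ⟨e1 ▸ integral_nonneg fun y => mul_nonneg (integral_nonneg fun z => GG_nonneg ..) (hW y),
    ?_⟩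
  simp only [← e1, ← fun k => (hk k).2, ← integral_const_mul]
  rw [← integral_finsetSum _ fun k _ => (hk k).1.const_mul _]
  refine integral_mono (integrable_finsetSum _ fun k _ => (hk k).1.const_mul _) (i1.const_mul _)
    fun y => ?_
  have h := one_dim (univ.erase 0) c (fun j => ∑ t, u j t * y t) hq hδ hδ1 J (by simpa using hJ)
  have e : ∀ z, GG univ c (fun j => ∑ t, u j t * y t) z =
      ‖c 0‖ ^ 2 * (‖z‖ ^ 2 * GG (univ.erase 0) c (fun j => ∑ t, u j t * y t) z) := by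
    intro z
    rw [GG, GG, ← mul_prod_erase univ _ (mem_univ 0)]
    simp [hu, mul_pow, mul_assoc]
  have h2 := mul_le_mul_of_nonneg_left h (mul_nonneg (sq_nonneg ‖c 0‖) (hW y))
  simp only [e, integral_const_mul]
  refine le_trans (le_of_eq ?_) (h2.trans (le_of_eq (by ring)))
  rw [mul_sum]
  refine sum_congr rfl fun k _ => ?_
  simp only [Matrix.of_apply, hu, Pi.zero_apply, zero_mul, sum_const_zero, add_zero, norm_mul,
    RCLike.norm_conj]
  ring

end Pool.Agent.Lib.MP_395ab6_co
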