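import Mathlib

/-! The permanent of a Gram matrix as a Gaussian integral. -/

namespace Pool.Agent.Lib.MP_395ab6_co

open Finset MeasureTheory Real
open scoped ComplexConjugate

/-- The density of the standard complex Gaussian. -/
noncomputable def gw (z : ℂ) : ℝ := rexp (-‖z‖ ^ 2) / π

lemma gw_pos (z : ℂ) : 0 < gw z := by
  unfold gw
  positivity

@[fun_prop]
lemma gw_cont : Continuous gw := by
  unfold gw
  fun_prop

lemma integral_pow_gw (n : ℕ) : ∫ z : ℂ, ‖z‖ ^ n * gw z = Real.Gamma ((n + 2) / 2) := by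
  have h := Complex.integral_rpow_mul_exp_neg_rpow (p := 2) (q := n) (by norm_num)
    (by have : (0 : ℝ) ≤ n := n.cast_nonneg; linarith)
  simp only [rpow_natCast, rpow_ofNat] at h
  simp only [gw, ← mul_div_assoc]
  rw [integral_div, h]
  field_simp

lemma integrable_pow_gw (n : ℕ) : Integrable fun z : ℂ => ‖z‖ ^ n * gw z := by
  refine Integrable.of_integral_ne_zero ?_
  rw [integral_pow_gw]
  exact (Real.Gamma_pos_of_pos (by positivity)).ne'

lemma integrable_mom (a b : ℕ) : Integrable fun z : ℂ => z ^ a * conj z ^ b * (gw z : ℂ) := by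
  refine (integrable_pow_gw (a + b)).mono' (Continuous.aestronglyMeasurable (by fun_prop))
    (.of_forall fun z => le_of_eq ?_)
  simp [abs_of_pos (gw_pos z), pow_add]

lemma integral_mom (a b : ℕ) : ∫ z : ℂ, z ^ a * conj z ^ b * (gw z : ℂ) =
    if a = b then (a.factorial : ℂ) else 0 := by
  split_ifs with h
  · subst h
    have e : ∀ z : ℂ, z ^ a * conj z ^ a * (gw z : ℂ) = ((‖z‖ ^ (2 * a) * gw z : ℝ) : ℂ) := by
      intro z
      rw [← mul_pow, Complex.mul_conj, Complex.normSq_eq_norm_sq]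
      push_cast
      ring
    simp_rw [e]
    rw [integral_complex_ofReal, integral_pow_gw]
    have : (((2 * a : ℕ) : ℝ) + 2) / 2 = a + 1 := by
      push_cast
      ring
    rw [this, Real.Gamma_nat_eq_factorial]
    simp
  · have hd : ((a : ℝ) - b) ≠ 0 := sub_ne_zero.2 (by exact_mod_cast h)
    set ω : Circle := Circle.exp (π / (a - b)) with hω
    have h1 := (rotation ω).measurePreserving.integral_comp
      (rotation ω).toHomeomorph.measurableEmbedding
      (fun z : ℂ => z ^ a * conj z ^ b * (gw z : ℂ))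
    have h2 : (ω : ℂ) ^ a * conj (ω : ℂ) ^ b = -1 := by
      rw [hω, Circle.coe_exp, ← Complex.exp_conj, ← Complex.exp_nat_mul, ← Complex.exp_nat_mul,
        ← Complex.exp_add, ← Complex.exp_pi_mul_I]
      congr 1
      have hd' : ((a : ℂ) - b) ≠ 0 := by exact_mod_cast hd
      simp only [map_mul, Complex.conj_ofReal, Complex.conj_I]
      push_cast
      field_simp
      ring
    have h3 : ∀ z : ℂ, (rotation ω z) ^ a * conj (rotation ω z) ^ b * (gw (rotation ω z) : ℂ) =
        -(z ^ a * conj z ^ b * (gw z : ℂ)) := by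
      intro z
      have : gw (rotation ω z) = gw z := by simp [gw]
      rw [this, rotation_apply, map_mul, mul_pow, mul_pow]
      linear_combination (z ^ a * conj z ^ b * (gw z : ℂ)) * h2
    simp_rw [h3] at h1
    rw [integral_neg] at h1
    linear_combination (-1 / 2 : ℂ) * h1

variable {ι T : Type*} [Fintype ι] [DecidableEq ι] [Fintype T] [DecidableEq T]

lemma card_perm_comp (f g : ι → T) :
    ((univ.filter fun σ : Equiv.Perm ι => g ∘ σ = f).card : ℂ) =
      ∏ t, if Fintype.card {j // f j = t} = Fintype.card {j // g j = t}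
        then ((Fintype.card {j // f j = t}).factorial : ℂ) else 0 := by
  by_cases h : ∀ t, Fintype.card {j // f j = t} = Fintype.card {j // g j = t}
  · let τ : Equiv.Perm ι := Equiv.ofFiberEquiv fun t => Fintype.equivOfCardEq (h t)
    have hτ : ∀ j, g (τ j) = f j := Equiv.ofFiberEquiv_map _
    have h1 := DomMulAct.stabilizer_card f
    rw [Fintype.card_subtype] at h1
    have h2 : (univ.filter fun σ : Equiv.Perm ι => g ∘ σ = f).card =
        (univ.filter fun σ : Equiv.Perm ι => f ∘ σ = f).card := by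
      refine card_equiv (Equiv.mulLeft τ⁻¹) fun σ => ?_
      simp only [mem_filter, mem_univ, true_and, Equiv.coe_mulLeft, Equiv.Perm.coe_mul]
      have : f ∘ (τ⁻¹ : Equiv.Perm ι) = g := funext fun j => by simp [← hτ]
      rw [← Function.comp_assoc, this]
    rw [h2, h1]
    simp [h]
  · obtain ⟨t, ht⟩ := not_forall.1 h
    rw [prod_eq_zero (mem_univ t) (if_neg ht), Nat.cast_eq_zero, card_eq_zero, filter_eq_empty_iff]
    intro σ _ e
    exact ht (Fintype.card_congr (σ.subtypeEquiv fun j => by simp [← e]))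

omit [DecidableEq ι] in
lemma prod_cnt (f : ι → T) (y : T → ℂ) :
    ∏ j, y (f j) = ∏ t, y t ^ Fintype.card {j // f j = t} := by
  rw [← Fintype.prod_fiberwise' f y]
  simp

lemma expand (V : ι → T → ℂ) (y : T → ℂ) :
    (((∏ j, ‖∑ t, V j t * y t‖ ^ 2) * ∏ t, gw (y t) : ℝ) : ℂ) =
      ∑ f : ι → T, ∑ g : ι → T, ((∏ j, V j (f j)) * ∏ j, conj (V j (g j))) *
        ∏ t, (y t ^ Fintype.card {j // f j = t} * conj (y t) ^ Fintype.card {j // g j = t} *
          (gw (y t) : ℂ)) := by
  have h1 : ((∏ j, ‖∑ t, V j t * y t‖ ^ 2 : ℝ) : ℂ) =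
      (∏ j, ∑ t, V j t * y t) * ∏ j, ∑ t, conj (V j t) * conj (y t) := by
    rw [← prod_mul_distrib, Complex.ofReal_prod]
    refine prod_congr rfl fun j _ => ?_
    rw [← Complex.normSq_eq_norm_sq, ← Complex.mul_conj]
    simp
  rw [Complex.ofReal_mul, h1, Fintype.prod_sum, Fintype.prod_sum, sum_mul_sum, sum_mul]
  refine sum_congr rfl fun f _ => ?_
  rw [sum_mul]
  refine sum_congr rfl fun g _ => ?_
  rw [prod_mul_distrib, prod_mul_distrib, prod_mul_distrib, prod_mul_distrib, prod_cnt f y,
    prod_cnt g fun t => conj (y t), Complex.ofReal_prod]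
  ring

lemma per_expand (V : ι → T → ℂ) :
    (Matrix.of fun i j => ∑ t, V i t * conj (V j t)).permanent =
      ∑ f : ι → T, ∑ g : ι → T, ((∏ j, V j (f j)) * ∏ j, conj (V j (g j))) *
        ((univ.filter fun σ : Equiv.Perm ι => g ∘ σ = f).card : ℂ) := by
  rw [Matrix.permanent, ← Equiv.sum_comp (Equiv.inv (Equiv.Perm ι)), sum_comm]
  simp only [Matrix.of_apply, Fintype.prod_sum, Equiv.inv_apply]
  rw [sum_comm]
  refine sum_congr rfl fun g _ => ?_
  rw [← sum_fiberwise univ (fun σ : Equiv.Perm ι => g ∘ σ)]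
  refine sum_congr rfl fun f _ => ?_
  rw [sum_congr rfl (g := fun _ => (∏ j, V j (f j)) * ∏ j, conj (V j (g j))), sum_const,
    nsmul_eq_mul, mul_comm]
  intro σ hσ
  rw [prod_mul_distrib, ← (mem_filter.1 hσ).2, ← Equiv.prod_comp σ]
  simp

theorem wick (V : ι → T → ℂ) :
    Integrable (fun y : T → ℂ => (∏ j, ‖∑ t, V j t * y t‖ ^ 2) * ∏ t, gw (y t)) ∧
      ∫ y : T → ℂ, (∏ j, ‖∑ t, V j t * y t‖ ^ 2) * ∏ t, gw (y t) =
        (Matrix.of fun i j => ∑ t, V i t * conj (V j t)).permanent.re := by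
  have hi : ∀ f g : ι → T, Integrable fun y : T → ℂ =>
      ((∏ j, V j (f j)) * ∏ j, conj (V j (g j))) *
        ∏ t, (y t ^ Fintype.card {j // f j = t} * conj (y t) ^ Fintype.card {j // g j = t} *
          (gw (y t) : ℂ)) := fun f g =>
    (Integrable.fintype_prod (f := fun t z => z ^ Fintype.card {j // f j = t} *
      conj z ^ Fintype.card {j // g j = t} * (gw z : ℂ)) fun t => integrable_mom _ _).const_mul _
  have h1 : Integrable fun y : T → ℂ =>
      (((∏ j, ‖∑ t, V j t * y t‖ ^ 2) * ∏ t, gw (y t) : ℝ) : ℂ) := by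
    simp_rw [expand]
    exact integrable_finsetSum _ fun f _ => integrable_finsetSum _ fun g _ => hi f g
  refine ⟨by simpa only [RCLike.re_to_complex, Complex.ofReal_re] using h1.re, ?_⟩
  rw [← Complex.ofReal_re (∫ _, _), ← integral_complex_ofReal, per_expand]
  congr 1
  simp_rw [expand]
  rw [integral_finsetSum _ fun f _ => integrable_finsetSum _ fun g _ => hi f g]
  refine sum_congr rfl fun f _ => ?_
  rw [integral_finsetSum _ fun g _ => hi f g]
  refine sum_congr rfl fun g _ => ?_
  rw [integral_const_mul, integral_fintype_prod_volume_eq_prod (fun t z =>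
    z ^ Fintype.card {j // f j = t} * conj z ^ Fintype.card {j // g j = t} * (gw z : ℂ)),
    card_perm_comp]
  simp_rw [integral_mom]

end Pool.Agent.Lib.MP_395ab6_co
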